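import Mathlib

/-!
# Classes of groups with the inheritance properties of the Farrell-Jones conjecture

`IsFJClass P` says that the class `P` of groups contains the infinite cyclic group and is closed
under subgroups, overgroups of finite index, finite direct products, free products of two groups,
directed colimits (with arbitrary structure maps) and extensions `f : G → Q` with `Q` in `P` such
that the preimages of all cyclic subgroups of `Q` are in `P`.
-/

set_option autoImplicit false

namespace Pool.Agent.FJ

/-- `P` is a class of groups with the inheritance properties of the Farrell-Jones conjecture. -/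
structure IsFJClass (P : ∀ (G : Type) [Group G], Prop) : Prop where
  /-- the infinite cyclic group is in the class -/
  int : P (Multiplicative ℤ)
  /-- closed under subgroups (and isomorphisms) -/
  of_injective : ∀ {G H : Type} [Group G] [Group H] (f : G →* H), Function.Injective f → P H → P G
  /-- closed under overgroups of finite index -/
  of_finiteIndex : ∀ {G : Type} [Group G] (H : Subgroup G), H.FiniteIndex → P H → P G
  /-- closed under direct products of two groups -/
  prod : ∀ {G H : Type} [Group G] [Group H], P G → P H → P (G × H)
  /-- closed under free products of two groups -/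
  coprod : ∀ {G H : Type} [Group G] [Group H], P G → P H → P (Monoid.Coprod G H)
  /-- closed under directed colimits: `L` is the colimit of the directed system `(G i, f i j)`
  with canonical maps `g i` -/
  colimit : ∀ {ι : Type} [Preorder ι] [IsDirectedOrder ι] [Nonempty ι]
    (G : ι → Type) [∀ i, Group (G i)] (f : ∀ i j, i ≤ j → G i →* G j)
    {L : Type} [Group L] (g : ∀ i, G i →* L),
    (∀ i x, f i i le_rfl x = x) →
    (∀ i j k (hij : i ≤ j) (hjk : j ≤ k) x, f j k hjk (f i j hij x) = f i k (hij.trans hjk) x) →
    (∀ i j (hij : i ≤ j) x, g j (f i j hij x) = g i x) →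
    (∀ y, ∃ i x, g i x = y) →
    (∀ i x, g i x = 1 → ∃ j, ∃ hij : i ≤ j, f i j hij x = 1) →
    (∀ i, P (G i)) → P L
  /-- closed under extensions: if `Q` and the preimages of the cyclic subgroups of `Q` are in the
  class, so is `G` -/
  extension : ∀ {G Q : Type} [Group G] [Group Q] (f : G →* Q), P Q →
    (∀ q : Q, P ((Subgroup.zpowers q).comap f)) → P G

variable {P : ∀ (G : Type) [Group G], Prop}

namespace IsFJClass

variable (hP : IsFJClass P)
include hP

theorem of_equiv {G H : Type} [Group G] [Group H] (e : G ≃* H) (h : P H) : P G :=
  hP.of_injective e.toMonoidHom e.injective h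

theorem subgroup {G : Type} [Group G] (H : Subgroup G) (h : P G) : P H :=
  hP.of_injective H.subtype H.subtype_injective h

theorem of_le {G : Type} [Group G] {H K : Subgroup G} (hHK : H ≤ K) (h : P K) : P H :=
  hP.of_injective (Subgroup.inclusion hHK) (Subgroup.inclusion_injective hHK) h

/-- A group is in the class if every finite subset is contained in a subgroup in the class. -/
theorem locally {G : Type} [Group G]
    (h : ∀ S : Finset G, ∃ K : Subgroup G, (∀ x ∈ S, x ∈ K) ∧ P K) : P G := by
  classical
  have h1 : ∀ S : Finset G, P (Subgroup.closure (S : Set G)) := fun S => by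
    obtain ⟨K, hK, hPK⟩ := h S
    exact hP.of_le ((Subgroup.closure_le K).2 fun x hx => hK x hx) hPK
  refine hP.colimit (ι := Finset G) (fun S => Subgroup.closure (S : Set G))
    (fun S T hST => Subgroup.inclusion (Subgroup.closure_mono (by exact_mod_cast hST)))
    (fun S => (Subgroup.closure (S : Set G)).subtype) ?_ ?_ ?_ ?_ ?_ h1
  · intro i x; rfl
  · intro i j k hij hjk x; rfl
  · intro i j hij x; rfl
  · intro y
    exact ⟨{y}, ⟨y, Subgroup.subset_closure (by simp)⟩, rfl⟩
  · intro i x hx
    refine ⟨i, le_rfl, ?_⟩
    ext
    exact hx

/-- Every finite group is in the class. -/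
theorem of_finite {G : Type} [Group G] [Finite G] : P G := by
  have h0 : P (⊥ : Subgroup G) := by
    refine hP.of_injective (1 : (⊥ : Subgroup G) →* Multiplicative ℤ) ?_ hP.int
    intro x y _
    exact Subsingleton.elim x y
  exact hP.of_finiteIndex ⊥ inferInstance h0

theorem of_subsingleton {G : Type} [Group G] [Subsingleton G] : P G := hP.of_finite

/-- Finite direct products of several groups. -/
theorem pi' {ι : Type} [Finite ι] {G : ι → Type} [∀ i, Group (G i)] (h : ∀ i, P (G i)) :
    P (∀ i, G i) := by
  classical
  have := Fintype.ofFinite ι
  have key : ∀ s : Finset ι, P (∀ i : s, G i) := by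
    intro s
    induction s using Finset.induction_on with
    | empty => exact hP.of_subsingleton
    | insert a s ha ih =>
      refine hP.of_injective (H := G a × (∀ i : s, G i))
        ((Pi.evalMonoidHom (fun i : (insert a s : Finset ι) => G i)
            ⟨a, Finset.mem_insert_self a s⟩).prod
          (MonoidHom.pi fun i : s => Pi.evalMonoidHom
            (fun i : (insert a s : Finset ι) => G i) ⟨i, Finset.mem_insert_of_mem i.2⟩))
        ?_ (hP.prod (h a) ih)
      intro x y hxy
      simp only [MonoidHom.prod_apply, Prod.mk.injEq] at hxy
      obtain ⟨h0, h1⟩ := hxy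
      funext i
      obtain ⟨i, hi⟩ := i
      rcases Finset.mem_insert.1 hi with rfl | hi'
      · exact h0
      · exact congrFun h1 ⟨i, hi'⟩
  refine hP.of_injective (MonoidHom.pi fun i : (Finset.univ : Finset ι) =>
    Pi.evalMonoidHom G i) ?_ (key Finset.univ)
  intro x y hxy
  funext i
  exact congrFun hxy ⟨i, Finset.mem_univ i⟩

/-- Finite direct products of copies of one group. -/
theorem pi {ι : Type} [Finite ι] {G : Type} [Group G] (h : P G) : P (ι → G) :=
  hP.pi' (fun _ => h)

/-- A group with a homomorphism to a finite group whose kernel is in the class. -/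
theorem of_finite_range {G Q : Type} [Group G] [Group Q] [Finite Q] (f : G →* Q)
    (h : P f.ker) : P G := by
  refine hP.of_finiteIndex f.ker ?_ h
  infer_instance

end IsFJClass

end Pool.Agent.FJ
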