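import Pool.Agent.Lib.MP_98022b_h71.Contr

/-!
# Stabilizers of the ray `y0 y0 y0 ...` and construction of the tower
-/

set_option autoImplicit false

namespace Pool.Agent.FJ

variable {P : ∀ (G : Type) [Group G], Prop}

variable {Y W : Type} [Group W] {S : TreeSS Y W} {y0 : Y}

theorem oo_add (y0 : Y) (m n : ℕ) : oo y0 (m + n) = oo y0 m ++ oo y0 n :=
  List.replicate_add ..

namespace DirData

variable (E : DirData S y0)

/-- Elements of the join of `N` and `B` have short sections. -/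
theorem short_of_join [Finite Y] (hst : E.Stab) {g : W}
    (hg : g ∈ E.N ⊔ E.B) : ∃ n : ℕ, ∀ v : List Y, v.length = n →
      ∃ m1 ∈ E.N, ∃ b ∈ E.B, ∃ m2 ∈ E.N, S.secL g v = m1 * b * m2 := by
  have h := ev_all (E := E) (A := E.B) (Γ := W) (MonoidHom.id _)
    (Subgroup.inclusion E.hCB) E.N.subtype E.B.subtype (MonoidHom.id W)
    S.toSS (fun c => rfl) (fun m => rfl) (fun a => rfl) rfl (fun m y h => rfl)
    (fun a => E.secB0 a.2) (fun a y hy h => rfl) hst (w := g) (by
      rw [Subgroup.range_subtype, Subgroup.range_subtype]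
      exact hg)
  obtain ⟨n, hn⟩ := h
  refine ⟨n, fun v hv => ?_⟩
  obtain ⟨m, a, m', h⟩ := hn v hv
  exact ⟨m, m.2, a, a.2, m', m'.2, h⟩

theorem stab_next [Finite Y] (ih : E.Stab) {Nn : Subgroup W}
    (hNn : ∀ g, g ∈ Nn → ∃ n : ℕ, ∀ v : List Y, v.length = n → S.secL g v ∈ E.N ⊔ E.B)
    {m : W} (hm : m ∈ Nn) (hfix : ∀ n, S.act m (oo y0 n) = oo y0 n) :
    ∃ n, S.secL m (oo y0 n) ∈ E.B := by
  obtain ⟨n, hn⟩ := hNn m hm
  have hg := hn (oo y0 n) (by simp)
  obtain ⟨n', hn'⟩ := E.short_of_join ih hg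
  obtain ⟨m1, hm1, b, hb, m2, hm2, e⟩ := hn' (oo y0 n') (by simp)
  rw [← S.secL_append, ← oo_add] at e
  set N := n + n' with hNdef
  -- the section fixes the ray
  have hfix' : ∀ j, S.act (S.secL m (oo y0 N)) (oo y0 j) = oo y0 j := by
    intro j
    have h := hfix (N + j)
    rw [oo_add, S.act_append, hfix N] at h
    exact List.append_cancel_left h
  have hB1 : ∀ j, S.secL b (oo y0 j) = b := fun j => secL_B (E := E) hb j
  have hB2 : ∀ j, S.act b (oo y0 j) = oo y0 j := fun j => act_B (E := E) hb j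
  have hdrop : ∀ v : List Y, v ≠ oo y0 v.length → S.secL b v ∈ E.N := by
    intro v hv
    rcases secL_inA (E := E) (A := E.B) (Γ := W) (MonoidHom.id _)
      E.N.subtype E.B.subtype S.toSS (fun m y h => rfl)
      (fun a => E.secB0 a.2) (fun a y hy h => rfl) ⟨b, hb⟩ v with ⟨h, _⟩ | ⟨_, m', h⟩
    · exact absurd h hv
    · have h' : S.secL b v = m' := h
      rw [h']
      exact m'.2
  -- it suffices to find a section in `N`
  have hred : ∀ j, S.secL m (oo y0 (N + j)) ∈ E.N → ∃ n, S.secL m (oo y0 n) ∈ E.B := by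
    intro j hj
    obtain ⟨p, hp⟩ := ih _ hj (by
      intro i
      have h1 := hfix (N + j + i)
      rw [oo_add, S.act_append, hfix (N + j)] at h1
      exact List.append_cancel_left h1)
    refine ⟨N + j + p, ?_⟩
    rw [oo_add, S.secL_append]
    exact E.hCB hp
  by_cases h2 : ∀ j, S.act m2 (oo y0 j) = oo y0 j
  · have h1 : ∀ j, S.act m1 (oo y0 j) = oo y0 j := by
      intro j
      have h := hfix' j
      rw [e, S.act_mul, S.act_mul, h2, hB2] at h
      exact h
    obtain ⟨p, hp⟩ := ih m2 hm2 h2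
    obtain ⟨q, hq⟩ := ih m1 hm1 h1
    have key : ∀ {x : W} {r : ℕ} (M : ℕ), S.secL x (oo y0 r) ∈ E.C → r ≤ M →
        S.secL x (oo y0 M) ∈ E.B := by
      intro x r M hx hr
      obtain ⟨d, rfl⟩ := Nat.exists_eq_add_of_le hr
      rw [oo_add, S.secL_append]
      have h3 : S.secL x (oo y0 r) ∈ E.B := E.hCB hx
      rw [secL_B (E := E) h3]
      exact h3
    refine ⟨N + max p q, ?_⟩
    rw [oo_add, S.secL_append, e, S.secL_mul, S.secL_mul, h2, hB2, hB1]
    exact mul_mem (mul_mem (key _ hq (le_max_right _ _)) hb) (key _ hp (le_max_left _ _))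
  · push Not at h2
    obtain ⟨j, hj⟩ := h2
    refine hred j ?_
    rw [oo_add, S.secL_append, e, S.secL_mul, S.secL_mul]
    refine mul_mem (mul_mem (E.secLN hm1 _) (hdrop _ ?_)) (E.secLN hm2 _)
    intro h
    rw [S.length_act, List.length_replicate] at h
    exact hj h

end DirData

/-! ### Construction of the tower -/

section

variable (S y0)

/-- The elements all of whose deep sections are in `G`. -/
def LL (G : Subgroup W) : Subgroup W where
  carrier := {g | ∃ n : ℕ, ∀ v : List Y, n ≤ v.length → S.secL g v ∈ G}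
  one_mem' := ⟨0, fun v _ => by rw [S.secL_one]; exact one_mem _⟩
  mul_mem' := by
    rintro a b ⟨n, hn⟩ ⟨m, hm⟩
    refine ⟨max n m, fun v hv => ?_⟩
    rw [S.secL_mul]
    exact mul_mem (hn _ (by rw [S.length_act]; exact (le_max_left _ _).trans hv))
      (hm _ ((le_max_right _ _).trans hv))
  inv_mem' := by
    rintro a ⟨n, hn⟩
    refine ⟨n, fun v hv => ?_⟩
    rw [S.secL_inv]
    exact inv_mem (hn _ (by rw [S.length_act]; exact hv))

/-- The directed elements with sections in `N`. -/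
def BB (N : Subgroup W) : Subgroup W where
  carrier := {b | S.perm b y0 = y0 ∧ S.sec b y0 = b ∧ ∀ y, y ≠ y0 → S.sec b y ∈ N}
  one_mem' := ⟨by rw [S.perm_one]; rfl, S.sec_one _, fun y _ => by
    rw [S.sec_one]; exact one_mem _⟩
  mul_mem' := by
    rintro a b ⟨ha1, ha2, ha3⟩ ⟨hb1, hb2, hb3⟩
    refine ⟨by rw [S.perm_mul, Equiv.Perm.mul_apply, hb1, ha1],
      by rw [S.sec_mul, hb1, ha2, hb2], fun y hy => ?_⟩
    rw [S.sec_mul]
    refine mul_mem (ha3 _ fun h => hy ?_) (hb3 _ hy)
    exact (S.perm b).injective (h.trans hb1.symm)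
  inv_mem' := by
    rintro a ⟨ha1, ha2, ha3⟩
    have h1 : S.perm a⁻¹ = (S.perm a)⁻¹ := by
      rw [eq_inv_iff_mul_eq_one, ← S.perm_mul, inv_mul_cancel, S.perm_one]
    have h2 : ∀ y, S.sec a⁻¹ y = (S.sec a ((S.perm a)⁻¹ y))⁻¹ := fun y => by
      have h := S.sec_mul a a⁻¹ y
      rw [mul_inv_cancel, S.sec_one, h1] at h
      exact eq_inv_of_mul_eq_one_right h.symm
    have h3 : (S.perm a)⁻¹ y0 = y0 := by
      rw [Equiv.Perm.inv_eq_iff_eq, ha1]
    refine ⟨by rw [h1, h3], by rw [h2, h3, ha2], fun y hy => ?_⟩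
    rw [h2]
    refine inv_mem (ha3 _ fun h => hy ?_)
    rw [Equiv.Perm.inv_eq_iff_eq, ha1] at h
    exact h

variable {S y0}

theorem mem_BB {N : Subgroup W} {b : W} : b ∈ BB S y0 N ↔
    S.perm b y0 = y0 ∧ S.sec b y0 = b ∧ ∀ y, y ≠ y0 → S.sec b y ∈ N := Iff.rfl

theorem BB_mono {N N' : Subgroup W} (h : N ≤ N') : BB S y0 N ≤ BB S y0 N' :=
  fun _ hb => ⟨hb.1, hb.2.1, fun y hy => h (hb.2.2 y hy)⟩

theorem mem_LL_iff_sec [Finite Y] {G : Subgroup W} (g : W) :
    g ∈ LL S G ↔ ∀ y, S.sec g y ∈ LL S G := by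
  constructor
  · rintro ⟨n, hn⟩ y
    exact ⟨n, fun v hv => hn (y :: v) (by simp; omega)⟩
  · intro h
    choose n hn using h
    obtain ⟨M, hM⟩ := Finite.exists_le n
    refine ⟨M + 1, fun v hv => ?_⟩
    cases v with
    | nil => simp at hv
    | cons y v => exact hn y v ((hM y).trans (by simpa using hv))

/-- Closed under sections. -/
def SecClosed (S : TreeSS Y W) (G : Subgroup W) : Prop := ∀ g ∈ G, ∀ y, S.sec g y ∈ G

theorem SecClosed.secL {G : Subgroup W} (hG : SecClosed S G) {g : W} (hg : g ∈ G) (v : List Y) :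
    S.secL g v ∈ G := by
  induction v generalizing g with
  | nil => exact hg
  | cons y v ih => exact ih (hG g hg y)

theorem mem_LL_iff {G : Subgroup W} (hG : SecClosed S G) (g : W) :
    g ∈ LL S G ↔ ∃ n : ℕ, ∀ v : List Y, v.length = n → S.secL g v ∈ G := by
  constructor
  · rintro ⟨n, hn⟩
    exact ⟨n, fun v hv => hn v hv.ge⟩
  · rintro ⟨n, hn⟩
    refine ⟨n, fun v hv => ?_⟩
    rw [← List.take_append_drop n v, S.secL_append]
    exact hG.secL (hn _ (by simp [hv])) _

theorem le_LL {G : Subgroup W} (hG : SecClosed S G) : G ≤ LL S G :=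
  fun _ hg => ⟨0, fun v _ => hG.secL hg v⟩

theorem secClosed_LL (G : Subgroup W) : SecClosed S (LL S G) := by
  rintro g ⟨n, hn⟩ y
  exact ⟨n, fun v hv => hn (y :: v) (by simp; omega)⟩

theorem secClosed_join {N : Subgroup W} (hN : SecClosed S N) : SecClosed S (N ⊔ BB S y0 N) := by
  intro g hg
  have : ∀ g ∈ N ⊔ BB S y0 N, ∀ y, S.sec g y ∈ N ⊔ BB S y0 N := by
    intro g hg
    rw [Subgroup.sup_eq_closure] at hg
    induction hg using Subgroup.closure_induction with
    | mem x hx =>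
      intro y
      rcases hx with hx | hx
      · exact Subgroup.mem_sup_left (hN x hx y)
      · by_cases hy : y = y0
        · subst hy
          rw [hx.2.1]
          exact Subgroup.mem_sup_right hx
        · exact Subgroup.mem_sup_left (hx.2.2 y hy)
    | one => intro y; rw [S.sec_one]; exact one_mem _
    | mul a b _ _ ha hb =>
      intro y
      rw [S.sec_mul]
      exact mul_mem (ha _) (hb _)
    | inv a _ ha =>
      intro y
      have h := S.secL_inv a [y]
      simp only [SS.secL_cons, SS.secL_nil, SS.act_cons, SS.act_nil] at h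
      rw [h]
      exact inv_mem (ha _)
  exact this g hg

variable (S y0)

/-- The groups `N k`. -/
def Nseq : ℕ → Subgroup W
  | 0 => LL S ⊥
  | k + 1 => LL S (Nseq k ⊔ BB S y0 (Nseq k))

/-- The groups `B k`. -/
def Bseq : ℕ → Subgroup W
  | 0 => ⊥
  | k + 1 => BB S y0 (Nseq S y0 k)

variable {S y0}

theorem secClosed_Nseq (k : ℕ) : SecClosed S (Nseq S y0 k) := by
  cases k with
  | zero => exact secClosed_LL _
  | succ k => exact secClosed_LL _

theorem Nseq_le_succ (k : ℕ) : Nseq S y0 k ≤ Nseq S y0 (k + 1) :=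
  le_sup_left.trans (le_LL (secClosed_join (secClosed_Nseq k)))

theorem Bseq_succ_le (k : ℕ) : Bseq S y0 (k + 1) ≤ Nseq S y0 (k + 1) :=
  le_sup_right.trans (le_LL (secClosed_join (secClosed_Nseq k)))

theorem Nseq_mono {k l : ℕ} (h : k ≤ l) : Nseq S y0 k ≤ Nseq S y0 l :=
  monotone_nat_of_le_succ Nseq_le_succ h

theorem mem_Nseq_iff [Finite Y] (k : ℕ) (g : W) :
    g ∈ Nseq S y0 k ↔ ∀ y, S.sec g y ∈ Nseq S y0 k := by
  cases k with
  | zero => exact mem_LL_iff_sec g
  | succ k => exact mem_LL_iff_sec g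

theorem secL_Bseq {k : ℕ} {b : W} (hb : b ∈ Bseq S y0 (k + 1)) (n : ℕ) :
    S.secL b (oo y0 n) = b := by
  induction n with
  | zero => rfl
  | succ n ih =>
    simp only [oo, List.replicate_succ, SS.secL_cons, hb.2.1] at ih ⊢
    exact ih

theorem act_Bseq {k : ℕ} {b : W} (hb : b ∈ Bseq S y0 (k + 1)) (n : ℕ) :
    S.act b (oo y0 n) = oo y0 n := by
  induction n with
  | zero => rfl
  | succ n ih =>
    simp only [oo, List.replicate_succ, SS.act_cons, hb.1, hb.2.1] at ih ⊢
    rw [ih]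

/-- The stabilizer property for the sequence. -/
def StabSeq (S : TreeSS Y W) (y0 : Y) (k : ℕ) : Prop :=
  ∀ m ∈ Nseq S y0 k, (∀ n, S.act m (oo y0 n) = oo y0 n) → ∃ n, S.secL m (oo y0 n) ∈ Bseq S y0 k

theorem Bseq_eq {k : ℕ} (h : StabSeq S y0 k) : Bseq S y0 k = Nseq S y0 k ⊓ Bseq S y0 (k + 1) := by
  apply le_antisymm
  · cases k with
    | zero => exact bot_le
    | succ k => exact le_inf (Bseq_succ_le k) (BB_mono (Nseq_le_succ k))
  · rintro m ⟨hm1, hm2⟩
    obtain ⟨n, hn⟩ := h m hm1 (act_Bseq hm2)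
    rwa [secL_Bseq hm2] at hn

/-- The directed data of level `k`. -/
def ddSeq [Finite Y] {k : ℕ} (h : StabSeq S y0 k) : DirData S y0 where
  N := Nseq S y0 k
  B := Bseq S y0 (k + 1)
  C := Bseq S y0 k
  hN := mem_Nseq_iff k
  hB _ := Iff.rfl
  hC := Bseq_eq h

theorem stabSeq [Finite Y] (k : ℕ) : StabSeq S y0 k := by
  induction k with
  | zero =>
    rintro m ⟨n, hn⟩ _
    exact ⟨n, hn _ (by simp)⟩
  | succ k ih =>
    intro m hm hfix
    have hE : (ddSeq ih).Stab := ih
    exact (ddSeq ih).stab_next hE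
      (fun g hg => (mem_LL_iff (secClosed_join (secClosed_Nseq k)) g).1 hg) hm hfix

/-- The tower. -/
def tower [Finite Y] (faithful : ∀ g h : W, (∀ v, S.act g v = S.act h v) → g = h)
    (dirMk : ∀ (π : Equiv.Perm Y) (s : Y → W), π y0 = y0 →
      ∃ b, S.perm b = π ∧ S.sec b y0 = b ∧ ∀ y, y ≠ y0 → S.sec b y = s y) : Tower S y0 where
  N := Nseq S y0
  B := Bseq S y0
  hN := mem_Nseq_iff
  hB0 := rfl
  hB _ _ := Iff.rfl
  hC k := Bseq_eq (stabSeq k)
  hNs k := mem_LL_iff (secClosed_join (secClosed_Nseq k))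
  faithful := faithful
  dirMk := dirMk

/-- Local finiteness of the group of finitary elements. -/
theorem Nseq_zero_mem (hP : IsFJClass P) [Finite Y] : P (Nseq S y0 0) := by
  classical
  refine hP.locally fun F => ?_
  choose n hn using fun x : Nseq S y0 0 => x.2
  let M := F.sup n
  let K : Subgroup (Nseq S y0 0) :=
    { carrier := {x | ∀ v : List Y, M ≤ v.length → S.secL (x : W) v = 1}
      one_mem' := fun v _ => S.secL_one v
      mul_mem' := fun {a b} ha hb v hv => by
        rw [Subgroup.coe_mul, S.secL_mul, ha _ (by rw [S.length_act]; exact hv), hb v hv, one_mul]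
      inv_mem' := fun {a} ha v hv => by
        rw [Subgroup.coe_inv, S.secL_inv, ha _ (by rw [S.length_act]; exact hv), inv_one] }
  refine ⟨K, fun x hx v hv => ?_, ?_⟩
  · have := hn x v ((Finset.le_sup hx).trans hv)
    exact this
  · have hfin : Finite K := by
      let e : K → (Words Y M → Words Y M) := fun x => actW S M (x : Nseq S y0 0).1
      refine Finite.of_injective e ?_
      intro x y hxy
      apply Subtype.ext
      apply Subtype.ext
      have hne : Nonempty Y := ⟨y0⟩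
      refine S.ext_level M (fun v hv => ?_) (fun v hv => ?_)
      · exact congrArg Subtype.val (congrFun hxy ⟨v, hv⟩)
      · rw [x.2 v hv.ge, y.2 v hv.ge]
    exact hP.of_finite

/-- All groups `Nseq k` are in the class. -/
theorem Nseq_mem (hP : IsFJClass P) [Finite Y]
    (faithful : ∀ g h : W, (∀ v, S.act g v = S.act h v) → g = h)
    (dirMk : ∀ (π : Equiv.Perm Y) (s : Y → W), π y0 = y0 →
      ∃ b, S.perm b = π ∧ S.sec b y0 = b ∧ ∀ y, y ≠ y0 → S.sec b y = s y) (k : ℕ) :
    P (Nseq S y0 k) :=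
  ((tower faithful dirMk).main hP (Nseq_zero_mem (y0 := y0) hP)
    (fun k => DirData.contracts_of_stab _ (stabSeq k)) k).1

end

end Pool.Agent.FJ
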