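import Pool.Agent.Lib.MP_98022b_h71.ZCase

/-!
# The twisted base case and the theorem on twisted free permutational products
-/

set_option autoImplicit false

namespace Pool.Agent.FJ

open Monoid SemidirectProduct

variable {P : ∀ (G : Type) [Group G], Prop}

/-- A nonempty reduced list of letters has non-trivial product. -/
theorem prod_ne_one_of_reduced {Ω N : Type} [Group N] (l : List (Σ _ : Ω, N)) (hl : l ≠ [])
    (h1 : ∀ a ∈ l, a.2 ≠ 1) (h2 : l.IsChain fun a b => a.1 ≠ b.1) :
    (l.map fun a => gen a.1 a.2).prod ≠ 1 := by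
  classical
  intro h
  let w : CoprodI.Word (fun _ : Ω => N) := ⟨l, h1, h2⟩
  have hw : CoprodI.Word.equiv.symm w =
      CoprodI.Word.equiv.symm (CoprodI.Word.empty : CoprodI.Word (fun _ : Ω => N)) := h
  have := CoprodI.Word.equiv.symm.injective hw
  exact hl (congrArg CoprodI.Word.toList this)

/-- Every element of a free product is a reduced product. -/
theorem exists_reduced {Ω N : Type} [Group N] (x : CoprodI (fun _ : Ω => N)) :
    ∃ l : List (Σ _ : Ω, N), (∀ a ∈ l, a.2 ≠ 1) ∧ (l.IsChain fun a b => a.1 ≠ b.1) ∧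
      (l.map fun a => gen a.1 a.2).prod = x := by
  classical
  let w := CoprodI.Word.equiv x
  exact ⟨w.toList, w.ne_one, w.chain_ne, CoprodI.Word.equiv.symm_apply_apply x⟩

section

/-- The index set `J × Y / S`. -/
def Idx (J Y : Type) [Group Y] (S : Subgroup Y) : Type := J × (Y ⧸ S)

variable {J Y N : Type} [Group Y] [Group N] (S : Subgroup Y)

/-- The index of a pair. -/
def idx (j : J) (y : Y) : Idx J Y S := (j, (QuotientGroup.mk y : Y ⧸ S))

instance instIdx : MulAction Y (Idx J Y S) where
  smul y p := ((p.1, y • p.2) : J × (Y ⧸ S))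
  one_smul p := Prod.ext rfl (one_smul Y p.2)
  mul_smul y y' p := Prod.ext rfl (mul_smul y y' p.2)

theorem smul_idx (j : J) (y y' : Y) : y • idx S j y' = idx S j (y * y') := rfl

theorem idx_eq {j j' : J} {y y' : Y} (h : idx S j y = idx S j' y') : j = j' ∧ y⁻¹ * y' ∈ S :=
  ⟨congrArg Prod.fst h, QuotientGroup.eq.1 (congrArg Prod.snd h)⟩

theorem idx_eq' {j : J} {y y' : Y} (h : y⁻¹ * y' ∈ S) : idx S j y = idx S j y' :=
  Prod.ext rfl (QuotientGroup.eq.2 h)

/-- The untwisted free permutational product of infinite cyclic groups over `J × Y / S`. -/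
abbrev Amb (J Y : Type) [Group Y] (S : Subgroup Y) : Type :=
  (Twist.triv Y (Idx J Y S) (Multiplicative ℤ)).Prod

/-- The generator of the infinite cyclic group. -/
def tt : Multiplicative ℤ := Multiplicative.ofAdd (1 : ℤ)

theorem tt_ne_one : tt ≠ 1 := fun h => by
  have := congrArg Multiplicative.toAdd h
  simp [tt] at this

/-- The generator at an index. -/
def sg (i : Idx J Y S) : Amb J Y S := inl (gen i tt)

theorem inr_mul_sg (y : Y) (i : Idx J Y S) :
    (inr y : Amb J Y S) * sg S i = sg S (y • i) * inr y := by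
  have h := (Twist.triv Y (Idx J Y S) (Multiplicative ℤ)).conj_gen y i tt
  exact (eq_mul_inv_iff_mul_eq.1 h).symm

theorem inr_mul_sg_inv (y : Y) (i : Idx J Y S) :
    (inr y : Amb J Y S) * (sg S i)⁻¹ = (sg S (y • i))⁻¹ * inr y := by
  have h := inr_mul_sg S y i
  rw [mul_inv_eq_iff_eq_mul, mul_assoc, h, inv_mul_cancel_left]

theorem inr_mul_sg_one (y : Y) (j : J) :
    (inr y : Amb J Y S) * sg S (idx S j 1) = sg S (idx S j y) * inr y := by
  rw [inr_mul_sg, smul_idx, mul_one]

theorem inr_mul_sg_one_inv (y : Y) (j : J) :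
    (inr y : Amb J Y S) * (sg S (idx S j 1))⁻¹ = (sg S (idx S j y))⁻¹ * inr y := by
  rw [inr_mul_sg_inv, smul_idx, mul_one]

theorem sg_comm (j : J) {y : Y} (hy : y ∈ S) :
    (inr y : Amb J Y S) * sg S (idx S j 1) = sg S (idx S j 1) * inr y := by
  rw [inr_mul_sg_one, idx_eq' S (y := y) (y' := 1) (by simpa using hy)]

/-- The map on one factor. -/
def bmap (f : J → (N →* Y)) (j : J) : N →* Amb J Y S :=
  (MulAut.conj (sg S (idx S j 1))).toMonoidHom.comp ((inr : Y →* Amb J Y S).comp (f j))

theorem bmap_apply (f : J → (N →* Y)) (j : J) (n : N) :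
    bmap S f j n = sg S (idx S j 1) * inr (f j n) * (sg S (idx S j 1))⁻¹ := rfl

/-- The expansion of a word. -/
def expand (f : J → (N →* Y)) : List (Σ _ : J, N) → Y → List (Σ _ : Idx J Y S, Multiplicative ℤ)
  | [], _ => []
  | a :: l, y => ⟨idx S a.1 y, tt⟩ :: ⟨idx S a.1 (y * f a.1 a.2), tt⁻¹⟩ ::
      expand f l (y * f a.1 a.2)

theorem expand_prod (f : J → (N →* Y)) (l : List (Σ _ : J, N)) (y : Y) :
    (inr y : Amb J Y S) * (l.map fun a => bmap S f a.1 a.2).prod =
      inl (((expand S f l y).map fun a => gen a.1 a.2).prod) *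
        inr (y * (l.map fun a => f a.1 a.2).prod) := by
  induction l generalizing y with
  | nil => simp [expand]
  | cons a l ih =>
    have ih' := ih (y * f a.1 a.2)
    have e1 : (inl (gen (idx S a.1 y) tt) : Amb J Y S) = sg S (idx S a.1 y) := rfl
    have e2 : (inl (gen (idx S a.1 (y * f a.1 a.2)) tt⁻¹) : Amb J Y S) =
      (sg S (idx S a.1 (y * f a.1 a.2)))⁻¹ := by rw [map_inv, map_inv]; rfl
    simp only [expand, List.map_cons, List.prod_cons, map_mul]
    rw [e1, e2, bmap_apply]
    calc (inr y : Amb J Y S) * (sg S (idx S a.1 1) * inr (f a.1 a.2) * (sg S (idx S a.1 1))⁻¹ *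
          (List.map (fun a => bmap S f a.1 a.2) l).prod)
        = ((inr y : Amb J Y S) * sg S (idx S a.1 1)) * inr (f a.1 a.2) * (sg S (idx S a.1 1))⁻¹ *
          (List.map (fun a => bmap S f a.1 a.2) l).prod := by simp only [mul_assoc]
      _ = sg S (idx S a.1 y) * ((inr (y * f a.1 a.2) : Amb J Y S) * (sg S (idx S a.1 1))⁻¹) *
          (List.map (fun a => bmap S f a.1 a.2) l).prod := by
            rw [inr_mul_sg_one, map_mul]; simp only [mul_assoc]
      _ = sg S (idx S a.1 y) * ((sg S (idx S a.1 (y * f a.1 a.2)))⁻¹ *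
          ((inr (y * f a.1 a.2) : Amb J Y S) *
          (List.map (fun a => bmap S f a.1 a.2) l).prod)) := by
            rw [inr_mul_sg_one_inv]; simp only [mul_assoc]
      _ = _ := by
            rw [ih']; simp only [mul_assoc, map_mul]

theorem expand_ne_one (f : J → (N →* Y)) (l : List (Σ _ : J, N)) (y : Y) :
    ∀ a ∈ expand S f l y, a.2 ≠ 1 := by
  induction l generalizing y with
  | nil => intro a ha; simp [expand] at ha
  | cons a l ih =>
    intro b hb
    simp only [expand, List.mem_cons] at hb
    rcases hb with rfl | rfl | hb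
    · exact tt_ne_one
    · exact inv_ne_one.2 tt_ne_one
    · exact ih _ b hb

theorem expand_chain (f : J → (N →* Y)) (hf : ∀ j n, f j n ∈ S → n = 1)
    (l : List (Σ _ : J, N)) (y : Y)
    (h1 : ∀ a ∈ l, a.2 ≠ 1) (h2 : l.IsChain fun a b => a.1 ≠ b.1) :
    (expand S f l y).IsChain fun a b => a.1 ≠ b.1 := by
  induction l generalizing y with
  | nil => exact List.isChain_nil
  | cons a l ih =>
    simp only [expand]
    refine List.isChain_cons_cons.2 ⟨?_, ?_⟩
    · intro h
      have h3 := (idx_eq S h).2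
      rw [inv_mul_cancel_left] at h3
      exact h1 a (List.mem_cons_self ..) (hf _ _ h3)
    · cases l with
      | nil => simp only [expand]; exact List.isChain_singleton _
      | cons b l =>
        have ih' := ih (y * f a.1 a.2) (fun c hc => h1 c (List.mem_cons_of_mem _ hc))
          (List.isChain_cons_cons.1 h2).2
        simp only [expand] at ih' ⊢
        refine List.isChain_cons_cons.2 ⟨?_, ih'⟩
        intro h
        exact (List.isChain_cons_cons.1 h2).1 (idx_eq S h).1

theorem bmap_injective (f : J → (N →* Y)) (hf : ∀ j n, f j n ∈ S → n = 1)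
    (x : CoprodI (fun _ : J => N)) (hx : genLift (bmap S f) x = 1) : x = 1 := by
  obtain ⟨l, h1, h2, rfl⟩ := exists_reduced x
  have hl : genLift (bmap S f) ((l.map fun a => gen a.1 a.2).prod) =
      (l.map fun a => bmap S f a.1 a.2).prod := by
    rw [map_list_prod, List.map_map]
    congr 1
  rw [hl] at hx
  by_cases hn : l = []
  · subst hn; simp
  · exfalso
    have h3 := expand_prod S f l 1
    rw [map_one, one_mul, hx, one_mul] at h3
    have h4 := congrArg SemidirectProduct.left h3
    simp only [SemidirectProduct.mul_left, SemidirectProduct.one_left,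
      SemidirectProduct.left_inl, SemidirectProduct.left_inr, map_one, mul_one] at h4
    have hne : expand S f l 1 ≠ [] := by
      cases l with
      | nil => exact absurd rfl hn
      | cons a l => simp [expand]
    exact prod_ne_one_of_reduced (expand S f l 1) hne (expand_ne_one S f l 1)
      (expand_chain S f hf l 1 h1 h2) h4.symm

/-- The twisted base case. -/
theorem IsFJClass.baseHyp_univ (hP : IsFJClass P) : BaseHyp P N Set.univ := by
  classical
  intro Z J _ _ _ T hZ hN _ htriv hst
  let κ : J → Z →* MulAut N := fun j =>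
    { toFun := fun z => T.κ z j
      map_one' := T.map_one j
      map_mul' := fun z z' => by rw [T.map_mul, htriv] }
  let φ : Z →* MulAut (J → N) :=
    { toFun := fun z => MulEquiv.piCongrRight fun j => κ j z
      map_one' := by ext f j; simp
      map_mul' := fun z z' => by ext f j; simp }
  have hY : P ((J → N) ⋊[φ] Z) := by
    refine hP.of_injective (H := (∀ j, N ⋊[T.stab j] (MulAction.stabilizer Z j)) × Z)
      { toFun := fun x => (fun j => ⟨x.left j, ⟨x.right, htriv _ _⟩⟩, x.right)
        map_one' := rfl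
        map_mul' := fun x y => rfl } ?_ (hP.prod (hP.pi' hst) hZ)
    intro x y hxy
    have h1 := congrArg Prod.fst hxy
    have h2 := congrArg Prod.snd hxy
    refine SemidirectProduct.ext ?_ h2
    funext j
    exact congrArg SemidirectProduct.left (congrFun h1 j)
  let S : Subgroup ((J → N) ⋊[φ] Z) := (inr : Z →* (J → N) ⋊[φ] Z).range
  let f : J → (N →* (J → N) ⋊[φ] Z) := fun j => inl.comp (MonoidHom.mulSingle (fun _ : J => N) j)
  have hf : ∀ j n, f j n ∈ S → n = 1 := by
    rintro j n ⟨z, hz⟩
    have h1 := congrArg (fun x => x.left j) hz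
    simp only [left_inr, Pi.one_apply, f, MonoidHom.comp_apply, left_inl,
      MonoidHom.mulSingle_apply, Pi.mulSingle_eq_same] at h1
    exact h1.symm
  have hβ : ∀ (z : Z) (j : J) (n : N), bmap S f (z • j) (T.κ z j n) =
      ((inr : _ →* Amb J ((J → N) ⋊[φ] Z) S).comp inr) z * bmap S f j n *
        (((inr : _ →* Amb J ((J → N) ⋊[φ] Z) S).comp inr) z)⁻¹ := by
    intro z j n
    rw [htriv, bmap_apply, bmap_apply]
    have h1 : f j (T.κ z j n) = inr z * f j n * (inr z)⁻¹ := by
      have : φ z (Pi.mulSingle (M := fun _ : J => N) j n) =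
          Pi.mulSingle (M := fun _ : J => N) j (T.κ z j n) := by
        funext i
        by_cases hij : i = j
        · subst hij
          simp [φ, κ]
        · simp [φ, κ, hij]
      show inl (Pi.mulSingle (M := fun _ : J => N) j (T.κ z j n)) = _
      rw [← this, inl_aut, map_inv]
      rfl
    have h2 : (inr (inr z) : Amb J ((J → N) ⋊[φ] Z) S) * sg S (idx S j 1) =
        sg S (idx S j 1) * inr (inr z) := sg_comm S j ⟨z, rfl⟩
    have h4 : (inr (f j (T.κ z j n)) : Amb J ((J → N) ⋊[φ] Z) S) =
      inr (inr z) * inr (f j n) * (inr (inr z))⁻¹ := by rw [h1, map_mul, map_mul, map_inv]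
    show sg S (idx S j 1) * inr (f j (T.κ z j n)) * (sg S (idx S j 1))⁻¹ =
      inr (inr z) * (sg S (idx S j 1) * inr (f j n) * (sg S (idx S j 1))⁻¹) * (inr (inr z))⁻¹
    rw [h4]
    have h3 : sg S (idx S j 1) * inr (inr z) * (sg S (idx S j 1))⁻¹ =
      (inr (inr z) : Amb J ((J → N) ⋊[φ] Z) S) := by
      rw [← h2, mul_inv_cancel_right]
    calc sg S (idx S j 1) * (inr (inr z) * inr (f j n) * (inr (inr z))⁻¹) *
          (sg S (idx S j 1))⁻¹
        = (sg S (idx S j 1) * inr (inr z)) * inr (f j n) *
          (sg S (idx S j 1) * inr (inr z))⁻¹ := by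
            rw [mul_inv_rev]; simp only [mul_assoc]
      _ = _ := by rw [← h2, mul_inv_rev]; simp only [mul_assoc]
  refine hP.of_injective (H := Amb J ((J → N) ⋊[φ] Z) S)
    (T.lift (inr.comp inr) (bmap S f) hβ) ?_ (hP.free_perm hY hP.int)
  rw [injective_iff_map_eq_one]
  rintro ⟨w, z⟩ hx
  have hw : T.lift (inr.comp inr) (bmap S f) hβ (inl w) = genLift (bmap S f) w := by
    simp [Twist.lift]
  rw [SemidirectProduct.mk_eq_inl_mul_inr, map_mul, Twist.lift_inr, hw] at hx
  let h : Amb J ((J → N) ⋊[φ] Z) S →* Z := rightHom.comp rightHom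
  have h1 : h.comp (genLift (bmap S f)) = 1 := by
    refine gen_hom_ext fun j n => ?_
    rw [MonoidHom.comp_apply, genLift_gen, bmap_apply, map_mul, map_mul, map_inv]
    have : h (inr (f j n)) = 1 := by simp [h, f]
    rw [this, mul_one, mul_inv_cancel]; rfl
  have hz : z = 1 := by
    have h2 := congrArg h hx
    rw [map_mul, ← MonoidHom.comp_apply, h1, map_one] at h2
    simpa [h] using h2
  subst hz
  rw [map_one, mul_one] at hx
  rw [bmap_injective S f hf w hx]
  rfl

/-- **Twisted free permutational products.** If `H` is in the class, acts on the set `Ω` and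
compatibly on the family of groups `N`, and the products `N ⋊ H_ω` are in the class, then so is
`(*_Ω N) ⋊ H`. -/
theorem IsFJClass.twist (hP : IsFJClass P) {H Ω : Type} [Group H] [MulAction H Ω] (hH : P H)
    (T : Twist H Ω N) (hst : ∀ ω, P (N ⋊[T.stab ω] (MulAction.stabilizer H ω))) : P T.Prod := by
  by_cases hΩ : Nonempty Ω
  · obtain ⟨ω⟩ := hΩ
    have hN : P N := hP.of_injective (inl : N →* N ⋊[T.stab ω] (MulAction.stabilizer H ω))
      inl_injective (hst ω)
    exact hP.twist_of_base (K := Set.univ) hP.baseHyp_univ hN hH T (fun _ _ => Set.mem_univ _) hst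
  · rw [not_nonempty_iff] at hΩ
    refine hP.of_injective (rightHom : T.Prod →* H) ?_ hH
    intro x y hxy
    have h0 : ∀ z : CoprodI (fun _ : Ω => N), z = 1 := fun z => by
      have h : MonoidHom.id (CoprodI (fun _ : Ω => N)) = 1 :=
        gen_hom_ext fun ω => hΩ.elim ω
      exact DFunLike.congr_fun h z
    exact SemidirectProduct.ext ((h0 _).trans (h0 _).symm) hxy

end

end Pool.Agent.FJ
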