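import Pool.Agent.Lib.MP_98022b_h71.Step2

/-!
# The induction over all levels
-/

set_option autoImplicit false

namespace Pool.Agent.FJ

variable {P : ∀ (G : Type) [Group G], Prop}

/-- The sequences of groups `N k` and `B k`. -/
structure Tower {Y W : Type} [Group W] (S : TreeSS Y W) (y0 : Y) where
  N : ℕ → Subgroup W
  B : ℕ → Subgroup W
  hN : ∀ k g, g ∈ N k ↔ ∀ y, S.sec g y ∈ N k
  hB0 : B 0 = ⊥
  hB : ∀ k b, b ∈ B (k + 1) ↔ S.perm b y0 = y0 ∧ S.sec b y0 = b ∧ ∀ y, y ≠ y0 → S.sec b y ∈ N k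
  hC : ∀ k, B k = N k ⊓ B (k + 1)
  hNs : ∀ k g, g ∈ N (k + 1) ↔
    ∃ n : ℕ, ∀ v : List Y, v.length = n → S.secL g v ∈ N k ⊔ B (k + 1)
  faithful : ∀ g h : W, (∀ v, S.act g v = S.act h v) → g = h
  dirMk : ∀ (π : Equiv.Perm Y) (s : Y → W), π y0 = y0 →
    ∃ b, S.perm b = π ∧ S.sec b y0 = b ∧ ∀ y, y ≠ y0 → S.sec b y = s y

namespace Tower

variable {Y W : Type} [Group W] {S : TreeSS Y W} {y0 : Y} (T : Tower S y0)

/-- The directed data of level `k`. -/
def dd (k : ℕ) : DirData S y0 where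
  N := T.N k
  B := T.B (k + 1)
  C := T.B k
  hN := T.hN k
  hB := T.hB k
  hC := T.hC k

theorem le_N (k : ℕ) : T.N k ≤ T.N (k + 1) := fun g hg =>
  (T.hNs k g).2 ⟨0, fun v hv => by
    rw [List.length_eq_zero_iff] at hv
    subst hv
    exact Subgroup.mem_sup_left hg⟩

theorem perm_iff (k : ℕ) {b : W} (hb : b ∈ T.B (k + 1)) (y : Y) :
    y ≠ y0 ↔ S.perm b y ≠ y0 := by
  have h0 := ((T.hB k b).1 hb).1
  rw [not_iff_not]
  constructor
  · rintro rfl
    exact h0
  · intro h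
    exact (S.perm b).injective (h.trans h0.symm)

/-- The homomorphism from `B (k + 1)` to a wreath product. -/
def fB (k : ℕ) : T.B (k + 1) →* Wr (T.N k) {y : Y // y ≠ y0} where
  toFun b := ⟨(S.perm (b : W)).subtypePerm (p := fun y => y ≠ y0)
      (fun y => (T.perm_iff k b.2 y).symm),
    fun y => ⟨S.sec (b : W) y.1, ((T.hB k b).1 b.2).2.2 y.1 y.2⟩⟩
  map_one' := by
    refine Wr.ext (Equiv.ext fun y => Subtype.ext ?_) (funext fun y => Subtype.ext ?_)
    · simp [S.perm_one]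
    · simp [S.sec_one]
  map_mul' a b := by
    refine Wr.ext (Equiv.ext fun y => Subtype.ext ?_) (funext fun y => Subtype.ext ?_)
    · show S.perm ((a : W) * b) y.1 = S.perm (a : W) (S.perm (b : W) y.1)
      rw [S.perm_mul]
      rfl
    · simp [S.sec_mul]

theorem fB_perm (k : ℕ) (b : T.B (k + 1)) (y : {y : Y // y ≠ y0}) :
    (((T.fB k b).perm y : {y : Y // y ≠ y0}) : Y) = S.perm (b : W) y.1 := rfl

theorem fB_s (k : ℕ) (b : T.B (k + 1)) (y : {y : Y // y ≠ y0}) :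
    (((T.fB k b).s y : T.N k) : W) = S.sec (b : W) y.1 := rfl

theorem fB_bij (k : ℕ) : Function.Bijective (T.fB k) := by
  classical
  constructor
  · intro a b hab
    have h1 : ∀ y, y ≠ y0 → S.perm (a : W) y = S.perm (b : W) y := fun y hy => by
      rw [← T.fB_perm k a ⟨y, hy⟩, ← T.fB_perm k b ⟨y, hy⟩, hab]
    have h2 : ∀ y, y ≠ y0 → S.sec (a : W) y = S.sec (b : W) y := fun y hy => by
      rw [← T.fB_s k a ⟨y, hy⟩, ← T.fB_s k b ⟨y, hy⟩, hab]
    have ha := (T.hB k a).1 a.2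
    have hb := (T.hB k b).1 b.2
    apply Subtype.ext
    refine T.faithful _ _ fun v => ?_
    induction v with
    | nil => rfl
    | cons y v ih =>
      rw [SS.act_cons, SS.act_cons]
      by_cases hy : y = y0
      · subst hy
        rw [ha.1, hb.1, ha.2.1, hb.2.1, ih]
      · rw [h1 y hy, h2 y hy]
  · rintro ⟨π, s⟩
    obtain ⟨b, hb1, hb2, hb3⟩ := T.dirMk (Equiv.Perm.ofSubtype π)
      (fun y => if h : y ≠ y0 then ((s ⟨y, h⟩ : T.N k) : W) else 1)
      (Equiv.Perm.ofSubtype_apply_of_not_mem π (by simp))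
    have hbB : b ∈ T.B (k + 1) := by
      rw [T.hB]
      refine ⟨?_, hb2, fun y hy => ?_⟩
      · rw [hb1]
        exact Equiv.Perm.ofSubtype_apply_of_not_mem π (by simp)
      · rw [hb3 y hy]
        simp [hy]
    refine ⟨⟨b, hbB⟩, Wr.ext (Equiv.ext fun y => Subtype.ext ?_) (funext fun y => Subtype.ext ?_)⟩
    · rw [fB_perm]
      show S.perm b y.1 = _
      rw [hb1]
      exact Equiv.Perm.ofSubtype_apply_of_mem π y.2
    · rw [fB_s]
      show S.sec b y.1 = _
      rw [hb3 y.1 y.2]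
      simp [y.2]

/-- The isomorphism of `B (k + 1)` with a wreath product. -/
noncomputable def eB (k : ℕ) : T.B (k + 1) ≃* Wr (T.N k) {y : Y // y ≠ y0} :=
  MulEquiv.ofBijective (T.fB k) (T.fB_bij k)

/-- The main induction. -/
theorem main (hP : IsFJClass P) [Finite Y] (hP0 : P (T.N 0))
    (hcontr : ∀ k, (T.dd k).Contracts) (k : ℕ) :
    P (T.N k) ∧ Nonempty (RetSys P (Subgroup.inclusion (T.dd k).hCB)) := by
  have : Nonempty Y := ⟨y0⟩
  induction k with
  | zero =>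
    refine ⟨hP0, ⟨?_⟩⟩
    have hsub : Subsingleton (T.dd 0).C := by
      have : (T.dd 0).C = ⊥ := T.hB0
      rw [this]
      infer_instance
    refine RetSys.const ?_ _
    exact hP.of_equiv (T.eB 0) (Wr.mem hP hP0)
  | succ k ih =>
    obtain ⟨hPk, ⟨sys⟩⟩ := ih
    let sys' : RetSys P (Subgroup.inclusion (T.le_N k)) :=
      (T.dd k).next sys hP hPk (hcontr k) (T.hNs k) (T.le_N k)
    refine ⟨sys'.mem hP, ⟨?_⟩⟩
    have key : ∀ x : Wr (T.N k) {y : Y // y ≠ y0},
        (Subgroup.inclusion (T.dd (k + 1)).hCB : T.B (k + 1) →* T.B (k + 2)) ((T.eB k).symm x) =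
          (T.eB (k + 1)).symm (Wr.map (Subgroup.inclusion (T.le_N k)) x) := by
      intro x
      obtain ⟨b, rfl⟩ := (T.eB k).surjective x
      have h1 : (T.eB k).symm (T.eB k b) = b := (T.eB k).symm_apply_apply b
      rw [h1, MulEquiv.eq_symm_apply]
      refine Wr.ext (Equiv.ext fun y => Subtype.ext ?_) (funext fun y => Subtype.ext ?_)
      · rfl
      · rfl
    exact (sys'.wr hP {y : Y // y ≠ y0}).congr (T.eB k).symm (T.eB (k + 1)).symm key

end Tower

end Pool.Agent.FJ
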