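import Pool.Agent.Lib.MP_98022b_h71.Assembly

/-!
# Contraction
-/

set_option autoImplicit false

namespace Pool.Agent.FJ

variable {P : ∀ (G : Type) [Group G], Prop}

section

variable {Y W : Type} [Group W] {S : TreeSS Y W} {y0 : Y} (E : DirData S y0)

/-- The word `y0 ... y0`. -/
abbrev oo (y0 : Y) (n : ℕ) : List Y := List.replicate n y0

/-- Every element of `N` which fixes all words `y0 ... y0` has a section in `C` at such a word. -/
def DirData.Stab : Prop :=
  ∀ m ∈ E.N, (∀ n, S.act m (oo y0 n) = oo y0 n) → ∃ n, S.secL m (oo y0 n) ∈ E.C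

section

variable {A Γ : Type} [Group A] [Group Γ] (g : A →* E.B) (s : E.C →* A)
    (inL : E.N →* Γ) (inA : A →* Γ) (lam : Γ →* W) (R : SS Y Γ)

/-- The elements `m a m'`. -/
def Short (w : Γ) : Prop := ∃ (m : E.N) (a : A) (m' : E.N), w = inL m * inA a * inL m'

/-- The elements all of whose sections at some level are short. -/
def Ev (w : Γ) : Prop := ∃ n : ℕ, ∀ v : List Y, v.length = n → Short E inL inA (R.secL w v)

variable {E}
    (hagree : ∀ c : E.C, inA (s c) = inL (Subgroup.inclusion E.hCN c))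
    (hL : ∀ m : E.N, lam (inL m) = m) (hA : ∀ a : A, lam (inA a) = (g a : E.B))
    (hR : R.Compat S.toSS lam)
    (hsL : ∀ (m : E.N) (y : Y) (h : S.sec (m : W) y ∈ E.N),
      R.sec (inL m) y = inL ⟨S.sec (m : W) y, h⟩)
    (hsA0 : ∀ a : A, R.sec (inA a) y0 = inA a)
    (hsA : ∀ (a : A) (y : Y), y ≠ y0 → ∀ h : S.sec ((g a : E.B) : W) y ∈ E.N,
      R.sec (inA a) y = inL ⟨S.sec ((g a : E.B) : W) y, h⟩)

include hsL in
theorem secL_inL (m : E.N) (v : List Y) : ∃ m' : E.N, R.secL (inL m) v = inL m' ∧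
    (m' : W) = S.secL m v := by
  induction v generalizing m with
  | nil => exact ⟨m, rfl, rfl⟩
  | cons y v ih =>
    rw [SS.secL_cons, hsL m y (E.secN m.2 y)]
    exact ih _

include hsL hsA0 hsA in
theorem secL_inA (a : A) (v : List Y) :
    (v = oo y0 v.length ∧ R.secL (inA a) v = inA a) ∨
      (v ≠ oo y0 v.length ∧ ∃ m' : E.N, R.secL (inA a) v = inL m') := by
  induction v with
  | nil => exact Or.inl ⟨rfl, rfl⟩
  | cons y v ih =>
    by_cases hy : y = y0
    · subst hy
      rw [SS.secL_cons, hsA0]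
      rcases ih with ⟨h1, h2⟩ | ⟨h1, h2⟩
      · refine Or.inl ⟨?_, h2⟩
        simp only [oo, List.length_cons, List.replicate_succ, List.cons.injEq, true_and]
        exact h1
      · refine Or.inr ⟨fun h => h1 ?_, h2⟩
        simpa only [oo, List.length_cons, List.replicate_succ, List.cons.injEq, true_and] using h
    · refine Or.inr ⟨fun h => ?_, ?_⟩
      · simp only [oo, List.length_cons, List.replicate_succ, List.cons.injEq] at h
        exact hy h.1
      · rw [SS.secL_cons, hsA a y hy (E.secB (g a).2 hy)]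
        obtain ⟨m', h, _⟩ := secL_inL inL R hsL ⟨S.sec ((g a : E.B) : W) y, E.secB (g a).2 hy⟩ v
        exact ⟨m', h⟩

theorem act_B {b : W} (hb : b ∈ E.B) (n : ℕ) : S.act b (oo y0 n) = oo y0 n := by
  induction n with
  | zero => rfl
  | succ n ih =>
    simp only [oo, List.replicate_succ, SS.act_cons, E.permB hb, E.secB0 hb] at ih ⊢
    rw [ih]

theorem secL_B {b : W} (hb : b ∈ E.B) (n : ℕ) : S.secL b (oo y0 n) = b := by
  induction n with
  | zero => rfl
  | succ n ih =>
    simp only [oo, List.replicate_succ, SS.secL_cons, E.secB0 hb] at ih ⊢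
    exact ih

include hsL hsA0 hsA in
theorem short_secL {w : Γ} (hw : Short E inL inA w) (v : List Y) :
    Short E inL inA (R.secL w v) := by
  obtain ⟨m, a, m', rfl⟩ := hw
  rw [R.secL_mul, R.secL_mul]
  obtain ⟨m1, h1, _⟩ := secL_inL inL R hsL m' v
  obtain ⟨m2, h2, _⟩ := secL_inL inL R hsL m (R.act (inA a) (R.act (inL m') v))
  rw [h1, h2]
  rcases secL_inA g inL inA R hsL hsA0 hsA a (R.act (inL m') v) with ⟨_, h3⟩ | ⟨_, m3, h3⟩
  · rw [h3]
    exact ⟨m2, a, m1, rfl⟩
  · rw [h3]
    exact ⟨m2 * m3, 1, m1, by rw [map_mul, map_one, mul_one]⟩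

theorem short_inv {w : Γ} (hw : Short E inL inA w) : Short E inL inA w⁻¹ := by
  obtain ⟨m, a, m', rfl⟩ := hw
  exact ⟨m'⁻¹, a⁻¹, m⁻¹, by rw [map_inv, map_inv, map_inv]; group⟩

include hsL hsA0 hsA in
theorem Ev.mono {w : Γ} {n n' : ℕ} (h : ∀ v : List Y, v.length = n → Short E inL inA (R.secL w v))
    (hn : n ≤ n') : ∀ v : List Y, v.length = n' → Short E inL inA (R.secL w v) := by
  intro v hv
  rw [← List.take_append_drop n v, R.secL_append]
  exact short_secL g inL inA R hsL hsA0 hsA (h _ (by simp [hv, hn])) _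

include hagree hL hA hR hsL hsA0 hsA in
/-- The key lemma. -/
theorem ev_three (hst : E.Stab) (a : A) (m : E.N) (b : A) :
    Ev E inL inA R (inA a * inL m * inA b) := by
  classical
  have hact : ∀ n, R.act (inA b) (oo y0 n) = oo y0 n := fun n => by
    rw [← hR.act, hA]; exact act_B (g b).2 n
  have hactm : ∀ v, R.act (inL m) v = S.act m v := fun v => by rw [← hR.act, hL]
  -- the case where the last letter drops
  have hdrop : ∀ v : List Y, v ≠ oo y0 v.length →
      Short E inL inA (R.secL (inA a * inL m * inA b) v) := by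
    intro v hv
    rw [R.secL_mul, R.secL_mul]
    rcases secL_inA g inL inA R hsL hsA0 hsA b v with ⟨h, _⟩ | ⟨_, m1, h1⟩
    · exact absurd h hv
    · obtain ⟨m2, h2, _⟩ := secL_inL inL R hsL m (R.act (inA b) v)
      rw [h1, h2]
      rcases secL_inA g inL inA R hsL hsA0 hsA a (R.act (inL m) (R.act (inA b) v)) with
        ⟨_, h3⟩ | ⟨_, m3, h3⟩
      · rw [h3]
        exact ⟨1, a, m2 * m1, by rw [map_mul, map_one, one_mul, mul_assoc]⟩
      · rw [h3]
        exact ⟨m3 * m2 * m1, 1, 1, by simp only [map_mul, map_one, mul_one]⟩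
  by_cases hfix : ∀ n, S.act m (oo y0 n) = oo y0 n
  · obtain ⟨n, hn⟩ := hst m m.2 hfix
    refine ⟨n, fun v hv => ?_⟩
    by_cases hv0 : v = oo y0 v.length
    · rw [hv] at hv0
      subst hv0
      rw [R.secL_mul, R.secL_mul, hact, hactm, hfix]
      obtain ⟨m1, h1, h1'⟩ := secL_inL inL R hsL m (oo y0 n)
      have e1 : R.secL (inA a) (oo y0 n) = inA a := by
        rcases secL_inA g inL inA R hsL hsA0 hsA a (oo y0 n) with ⟨_, h⟩ | ⟨h, _⟩
        · exact h
        · simp at h
      have e2 : R.secL (inA b) (oo y0 n) = inA b := by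
        rcases secL_inA g inL inA R hsL hsA0 hsA b (oo y0 n) with ⟨_, h⟩ | ⟨h, _⟩
        · exact h
        · simp at h
      rw [h1, e1, e2]
      have h2 : (m1 : W) ∈ E.C := by rw [h1']; exact hn
      have h3 : inL m1 = inA (s ⟨m1, h2⟩) := by
        rw [hagree]; rfl
      rw [h3]
      exact ⟨1, a * s ⟨m1, h2⟩ * b, 1, by simp only [map_mul, map_one, mul_one, one_mul]⟩
    · exact hdrop v hv0
  · push Not at hfix
    obtain ⟨n, hn⟩ := hfix
    refine ⟨n, fun v hv => ?_⟩
    by_cases hv0 : v = oo y0 v.length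
    · rw [hv] at hv0
      subst hv0
      rw [R.secL_mul, R.secL_mul, hact, hactm]
      obtain ⟨m1, h1, _⟩ := secL_inL inL R hsL m (oo y0 n)
      have e2 : R.secL (inA b) (oo y0 n) = inA b := by
        rcases secL_inA g inL inA R hsL hsA0 hsA b (oo y0 n) with ⟨_, h⟩ | ⟨h, _⟩
        · exact h
        · simp at h
      rw [h1, e2]
      rcases secL_inA g inL inA R hsL hsA0 hsA a (S.act m (oo y0 n)) with ⟨h, _⟩ | ⟨_, m3, h3⟩
      · exfalso
        rw [S.length_act, List.length_replicate] at h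
        exact hn h
      · rw [h3]
        exact ⟨m3 * m1, b, 1, by simp only [map_mul, map_one, mul_one]⟩
    · exact hdrop v hv0

include hagree hL hA hR hsL hsA0 hsA in
theorem ev_all [Finite Y] (hst : E.Stab) {w : Γ} (hw : w ∈ inL.range ⊔ inA.range) :
    Ev E inL inA R w := by
  have hmono : ∀ {w : Γ} {n n' : ℕ},
      (∀ v : List Y, v.length = n → Short E inL inA (R.secL w v)) → n ≤ n' →
        ∀ v : List Y, v.length = n' → Short E inL inA (R.secL w v) := fun h hn =>
    Ev.mono g inL inA R hsL hsA0 hsA h hn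
  rw [Subgroup.sup_eq_closure] at hw
  induction hw using Subgroup.closure_induction with
  | mem x hx =>
    refine ⟨0, fun v hv => ?_⟩
    rw [List.length_eq_zero_iff] at hv
    subst hv
    rcases hx with ⟨m, rfl⟩ | ⟨a, rfl⟩
    · exact ⟨m, 1, 1, by simp⟩
    · exact ⟨1, a, 1, by simp⟩
  | one =>
    refine ⟨0, fun v hv => ?_⟩
    rw [R.secL_one]
    exact ⟨1, 1, 1, by simp⟩
  | mul x y _ _ hx hy =>
    obtain ⟨n1, h1⟩ := hx
    obtain ⟨n2, h2⟩ := hy
    set n := max n1 n2 with hn
    have h1' := hmono h1 (le_max_left n1 n2)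
    have h2' := hmono h2 (le_max_right n1 n2)
    have key : ∀ v : Words Y n, Ev E inL inA R (R.secL (x * y) v.1) := by
      intro v
      rw [R.secL_mul]
      obtain ⟨m1, a, m2, e1⟩ := h1' (R.act y v.1) (by simp [v.2, hn])
      obtain ⟨m3, b, m4, e2⟩ := h2' v.1 v.2
      obtain ⟨p, hp⟩ := ev_three g s inL inA lam R hagree hL hA hR hsL hsA0 hsA hst a
        (m2 * m3) b
      refine ⟨p, fun u hu => ?_⟩
      rw [e1, e2]
      have e3 : inL m1 * inA a * inL m2 * (inL m3 * inA b * inL m4) =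
          inL m1 * (inA a * inL (m2 * m3) * inA b) * inL m4 := by
        rw [map_mul]; simp only [mul_assoc]
      rw [e3, R.secL_mul, R.secL_mul]
      obtain ⟨m5, h5, _⟩ := secL_inL inL R hsL m4 u
      obtain ⟨m6, h6, _⟩ := secL_inL inL R hsL m1
        (R.act (inA a * inL (m2 * m3) * inA b) (R.act (inL m4) u))
      obtain ⟨m7, c, m8, h7⟩ := hp (R.act (inL m4) u) (by simp [hu])
      rw [h5, h6, h7]
      exact ⟨m6 * m7, c, m8 * m5, by simp only [map_mul, mul_assoc]⟩
    choose p hp using key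
    obtain ⟨M, hM⟩ := Finite.exists_le p
    refine ⟨n + M, fun v hv => ?_⟩
    rw [← List.take_append_drop n v, R.secL_append]
    exact hmono (hp ⟨v.take n, by simp [hv]⟩) (hM _) _ (by simp [hv])
  | inv x _ hx =>
    obtain ⟨n, h⟩ := hx
    refine ⟨n, fun v hv => ?_⟩
    rw [R.secL_inv]
    exact short_inv inL inA (h _ (by simp [hv]))

end

theorem DirData.contracts_of_stab [Finite Y] (hst : E.Stab) : E.Contracts := by
  intro A Γ _ _ g s inL inA lam R hs hagree hL hA hR hsL hsA0 hsA htop w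
  exact ev_all g s inL inA lam R hagree hL hA hR hsL hsA0 hsA hst (by rw [htop]; trivial)

end

end Pool.Agent.FJ
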