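import Pool.Agent.Lib.MP_98022b_h71.SS

/-!
# Level groups

For a group `Γ` with a homomorphism `lam : Γ → W` to the tree group, the level group consists of
the elements `g` of `W` together with lifts to `Γ` of the sections at the words of length `n`.
-/

set_option autoImplicit false

namespace Pool.Agent.FJ

variable {P : ∀ (G : Type) [Group G], Prop}

section

variable {Y W : Type} [Group W] (S : TreeSS Y W) {Γ : Type} [Group Γ] (lam : Γ →* W)

/-- The level group. -/
@[ext]
structure Lev (n : ℕ) where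
  /-- the automorphism -/
  g : W
  /-- the lifts of the sections -/
  a : Words Y n → Γ
  h : ∀ v : Words Y n, lam (a v) = S.secL g v.1

/-- The action on words of given length. -/
def actW (n : ℕ) (g : W) (v : Words Y n) : Words Y n := ⟨S.act g v.1, by simp [v.2]⟩

theorem actW_mul (n : ℕ) (g h : W) (v : Words Y n) :
    actW S n (g * h) v = actW S n g (actW S n h v) := Subtype.ext (S.act_mul g h v.1)

theorem actW_one (n : ℕ) (v : Words Y n) : actW S n 1 v = v := Subtype.ext (S.act_one v.1)

namespace Lev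

variable {S lam} {n : ℕ}

instance : Mul (Lev S lam n) := ⟨fun x y => ⟨x.g * y.g, fun v => x.a (actW S n y.g v) * y.a v, by
  intro v
  rw [map_mul, x.h, y.h, S.secL_mul]
  rfl⟩⟩

instance : One (Lev S lam n) := ⟨⟨1, fun _ => 1, fun v => by rw [map_one, S.secL_one]⟩⟩

instance : Inv (Lev S lam n) := ⟨fun x => ⟨x.g⁻¹, fun v => (x.a (actW S n x.g⁻¹ v))⁻¹, by
  intro v
  rw [map_inv, x.h, S.secL_inv]
  rfl⟩⟩

@[simp] theorem mul_g (x y : Lev S lam n) : (x * y).g = x.g * y.g := rfl
@[simp] theorem mul_a (x y : Lev S lam n) (v : Words Y n) :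
    (x * y).a v = x.a (actW S n y.g v) * y.a v := rfl
@[simp] theorem one_g : (1 : Lev S lam n).g = 1 := rfl
@[simp] theorem one_a (v : Words Y n) : (1 : Lev S lam n).a v = 1 := rfl
@[simp] theorem inv_g (x : Lev S lam n) : (x⁻¹).g = x.g⁻¹ := rfl
@[simp] theorem inv_a (x : Lev S lam n) (v : Words Y n) :
    (x⁻¹).a v = (x.a (actW S n x.g⁻¹ v))⁻¹ := rfl

instance : Group (Lev S lam n) where
  mul_assoc x y z := by
    refine Lev.ext (mul_assoc _ _ _) (funext fun v => ?_)
    simp [mul_assoc, actW_mul]
  one_mul x := by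
    refine Lev.ext (one_mul _) (funext fun v => ?_)
    simp
  mul_one x := by
    refine Lev.ext (mul_one _) (funext fun v => ?_)
    simp [actW_one]
  inv_mul_cancel x := by
    refine Lev.ext (inv_mul_cancel _) (funext fun v => ?_)
    rw [mul_a, inv_a, one_a, ← actW_mul, inv_mul_cancel, actW_one, inv_mul_cancel]

/-- The projection to the tree group. -/
def toW : Lev S lam n →* W where
  toFun x := x.g
  map_one' := rfl
  map_mul' _ _ := rfl

theorem mem [Nonempty Y] [Finite Y] (hP : IsFJClass P) (hΓ : P Γ) : P (Lev S lam n) := by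
  let e : Lev S lam n →* Equiv.Perm (Words Y n) :=
    { toFun := fun x => ⟨actW S n x.g, actW S n x.g⁻¹,
        fun v => by rw [← actW_mul, inv_mul_cancel, actW_one],
        fun v => by rw [← actW_mul, mul_inv_cancel, actW_one]⟩
      map_one' := Equiv.ext fun v => actW_one S n v
      map_mul' := fun x y => Equiv.ext fun v => actW_mul S n x.g y.g v }
  have he : ∀ x : e.ker, ∀ v, actW S n x.1.g v = v := fun x v =>
    DFunLike.congr_fun (x.2 : e x.1 = 1) v
  refine hP.of_finite_range e ?_
  refine hP.of_injective (H := Words Y n → Γ)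
    { toFun := fun x => x.1.a
      map_one' := rfl
      map_mul' := fun x y => funext fun v => ?_ } ?_ (hP.pi hΓ)
  · show x.1.a (actW S n y.1.g v) * y.1.a v = x.1.a v * y.1.a v
    rw [he y v]
  · intro x y hxy
    have hxy' : x.1.a = y.1.a := hxy
    apply Subtype.ext
    refine Lev.ext ?_ hxy'
    refine S.ext_level n (fun v hv => ?_) (fun v hv => ?_)
    · exact (congrArg Subtype.val (he x ⟨v, hv⟩)).trans
        (congrArg Subtype.val (he y ⟨v, hv⟩)).symm
    · have h1 := x.1.h ⟨v, hv⟩
      have h2 := y.1.h ⟨v, hv⟩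
      rw [← h1, ← h2, hxy']

/-- Functoriality and passage to deeper levels. -/
def map {Γ' : Type} [Group Γ'] {lam' : Γ' →* W} (R : SS Y Γ)
    (hR : R.Compat S.toSS lam) (f : Γ →* Γ') (hf : lam'.comp f = lam) {n' : ℕ} (hn : n ≤ n') :
    Lev S lam n →* Lev S lam' n' where
  toFun x := ⟨x.g, fun v => f (R.secL (x.a ⟨v.1.take n, by simp [v.2, hn]⟩) (v.1.drop n)), by
    intro v
    rw [← MonoidHom.comp_apply, hf, ← hR.secL, x.h, ← S.secL_append, List.take_append_drop]⟩
  map_one' := by
    refine Lev.ext rfl (funext fun v => ?_)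
    simp [R.secL_one]
  map_mul' x y := by
    refine Lev.ext rfl (funext fun v => ?_)
    simp only [mul_a, R.secL_mul, _root_.map_mul]
    have hlen : (v.1.take n).length = n := by simp [v.2, hn]
    have h1 : S.act y.g v.1 = S.act y.g (v.1.take n) ++ S.act (S.secL y.g (v.1.take n))
        (v.1.drop n) := by
      rw [← S.act_append, List.take_append_drop]
    have h2 : (S.act y.g v.1).take n = S.act y.g (v.1.take n) := by
      rw [h1, List.take_left' (by simp [v.2, hn])]
    have h3 : (S.act y.g v.1).drop n = R.act (y.a ⟨v.1.take n, hlen⟩) (v.1.drop n) := by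
      rw [h1, List.drop_left' (by simp [v.2, hn]), ← hR.act, y.h]
    have h4 : (⟨(actW S n' y.g v).1.take n, by simp [actW, v.2, hn]⟩ : Words Y n) =
        actW S n y.g ⟨v.1.take n, hlen⟩ := Subtype.ext h2
    rw [h4]
    congr 2
    exact congrArg _ h3.symm

@[simp] theorem map_g {Γ' : Type} [Group Γ'] {lam' : Γ' →* W} (R : SS Y Γ)
    (hR : R.Compat S.toSS lam) (f : Γ →* Γ') (hf : lam'.comp f = lam) {n' : ℕ} (hn : n ≤ n')
    (x : Lev S lam n) : (map R hR f hf hn x).g = x.g := rfl

theorem map_a {Γ' : Type} [Group Γ'] {lam' : Γ' →* W} (R : SS Y Γ)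
    (hR : R.Compat S.toSS lam) (f : Γ →* Γ') (hf : lam'.comp f = lam) {n' : ℕ} (hn : n ≤ n')
    (x : Lev S lam n) (v : Words Y n') : (map R hR f hf hn x).a v =
      f (R.secL (x.a ⟨v.1.take n, by simp [v.2, hn]⟩) (v.1.drop n)) := rfl

end Lev

end

end Pool.Agent.FJ
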