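import Pool.Agent.Lib.MP_98022b_h71.TwFree

/-!
# Local arguments for (twisted) free products
-/

set_option autoImplicit false

namespace Pool.Agent.FJ

open Monoid SemidirectProduct

variable {P : ∀ (G : Type) [Group G], Prop}

theorem injective_of_comp_eq_id {A B : Type} [Group A] [Group B] (f : A →* B) (g : B →* A)
    (h : g.comp f = MonoidHom.id A) : Function.Injective f := by
  intro x y hxy
  have h1 := DFunLike.congr_fun h x
  have h2 := DFunLike.congr_fun h y
  simp only [MonoidHom.comp_apply, MonoidHom.id_apply] at h1 h2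
  rw [← h1, ← h2, hxy]

theorem IsFJClass.of_retract (hP : IsFJClass P) {A B : Type} [Group A] [Group B] (f : A →* B)
    (g : B →* A) (h : g.comp f = MonoidHom.id A) (hB : P B) : P A :=
  hP.of_injective f (injective_of_comp_eq_id f g h) hB

theorem IsFJClass.range (hP : IsFJClass P) {A B : Type} [Group A] [Group B] (f : A →* B)
    (hf : Function.Injective f) (hA : P A) : P f.range :=
  hP.of_equiv (MonoidHom.ofInjective hf).symm hA

/-- Free products of finitely many copies. -/
theorem IsFJClass.coprodI_fin (hP : IsFJClass P) {N : Type} [Group N] (hN : P N) :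
    ∀ n : ℕ, P (CoprodI (fun _ : Fin n => N)) := by
  intro n
  induction n with
  | zero =>
    have h : Subsingleton (CoprodI (fun _ : Fin 0 => N)) := by
      refine ⟨fun x y => ?_⟩
      have : ∀ z : CoprodI (fun _ : Fin 0 => N), z = 1 := fun z => by
        have h : MonoidHom.id (CoprodI (fun _ : Fin 0 => N)) = 1 :=
          gen_hom_ext fun ω => ω.elim0
        exact DFunLike.congr_fun h z
      rw [this x, this y]
    exact hP.of_subsingleton
  | succ n ih =>
    refine hP.of_retract (B := Coprod N (CoprodI (fun _ : Fin n => N)))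
      (genLift (Fin.cases Coprod.inl (fun j => Coprod.inr.comp (gen j))))
      (Coprod.lift (gen 0) (genLift fun j => gen j.succ)) ?_ (hP.coprod hN ih)
    refine gen_hom_ext fun ω n => ?_
    refine Fin.cases ?_ (fun j => ?_) ω
    · simp
    · simp

theorem IsFJClass.coprodI_finite (hP : IsFJClass P) {J : Type} [Finite J] {N : Type} [Group N]
    (hN : P N) : P (CoprodI (fun _ : J => N)) := by
  classical
  have := Fintype.ofFinite J
  let e := Fintype.equivFin J
  refine hP.of_retract (genLift fun j => gen (e j)) (genLift fun j => gen (e.symm j)) ?_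
    (hP.coprodI_fin hN (Fintype.card J))
  refine gen_hom_ext fun ω n => ?_
  simp

section

variable {H Ω N : Type} [Group H] [MulAction H Ω] [Group N] (T : Twist H Ω N)

/-- Restriction to an invariant subset. -/
abbrev Twist.sub (Ω' : SubMulAction H Ω) : Twist H Ω' N :=
  T.comap (MonoidHom.id H) (fun ω : Ω' => (ω : Ω)) (fun _ _ => rfl)

/-- The inclusion of the product over an invariant subset. -/
def Twist.incl (Ω' : SubMulAction H Ω) : (T.sub Ω').Prod →* T.Prod :=
  T.map (MonoidHom.id H) (fun ω : Ω' => (ω : Ω)) (fun _ _ => rfl)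

open Classical in
/-- The retraction onto the product over an invariant subset. -/
noncomputable def Twist.retr (Ω' : SubMulAction H Ω) : T.Prod →* (T.sub Ω').Prod :=
  T.lift inr (fun ω => if h : ω ∈ Ω' then inl.comp (gen (⟨ω, h⟩ : Ω')) else 1) (by
    intro h ω n
    by_cases hω : ω ∈ Ω'
    · have h' : h • ω ∈ Ω' := Ω'.smul_mem h hω
      simp only [hω, h', dif_pos]
      exact (T.sub Ω').conj_gen h ⟨ω, hω⟩ n
    · have h' : h • ω ∉ Ω' := fun h' => hω (by
        have := Ω'.smul_mem h⁻¹ h'
        rwa [inv_smul_smul] at this)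
      simp [hω, h'])

theorem Twist.retr_incl (Ω' : SubMulAction H Ω) :
    (T.retr Ω').comp (T.incl Ω') = MonoidHom.id _ := by
  refine Twist.hom_ext _ (fun h => ?_) (fun ω n => ?_)
  · simp [Twist.retr, Twist.incl]
  · rw [MonoidHom.comp_apply, Twist.incl, Twist.map_gen, Twist.retr, Twist.lift_gen]
    have : (ω : Ω) ∈ Ω' := ω.2
    simp only [this, dif_pos, Subtype.coe_eta]
    rfl

theorem Twist.incl_injective (Ω' : SubMulAction H Ω) : Function.Injective (T.incl Ω') :=
  injective_of_comp_eq_id _ _ (T.retr_incl Ω')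

theorem Twist.mem_range_incl (Ω' : SubMulAction H Ω) (h : H) :
    (inr h : T.Prod) ∈ (T.incl Ω').range := ⟨inr h, by simp [Twist.incl]⟩

theorem Twist.gen_mem_range_incl {Ω' : SubMulAction H Ω} {ω : Ω} (hω : ω ∈ Ω') (n : N) :
    (inl (gen ω n) : T.Prod) ∈ (T.incl Ω').range :=
  ⟨inl (gen (⟨ω, hω⟩ : Ω') n), by
    rw [Twist.incl, Twist.map_gen]⟩

theorem Twist.exists_finset (x : T.Prod) : ∃ F : Finset Ω, ∀ Ω' : SubMulAction H Ω,
    (∀ ω ∈ F, ω ∈ Ω') → x ∈ (T.incl Ω').range := by
  classical
  obtain ⟨w, h⟩ := x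
  have hw : ∃ F : Finset Ω, ∀ Ω' : SubMulAction H Ω,
      (∀ ω ∈ F, ω ∈ Ω') → (inl w : T.Prod) ∈ (T.incl Ω').range := by
    induction w using CoprodI.induction_on with
    | one => exact ⟨∅, fun Ω' _ => by rw [_root_.map_one]; exact one_mem _⟩
    | of ω n => exact ⟨{ω}, fun Ω' hΩ' => T.gen_mem_range_incl (hΩ' ω (by simp)) n⟩
    | mul a b ha hb =>
      obtain ⟨Fa, hFa⟩ := ha
      obtain ⟨Fb, hFb⟩ := hb
      refine ⟨Fa ∪ Fb, fun Ω' hΩ' => ?_⟩
      rw [_root_.map_mul]
      exact mul_mem (hFa Ω' fun ω hω => hΩ' ω (Finset.mem_union_left _ hω))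
        (hFb Ω' fun ω hω => hΩ' ω (Finset.mem_union_right _ hω))
  obtain ⟨F, hF⟩ := hw
  refine ⟨F, fun Ω' hΩ' => ?_⟩
  rw [SemidirectProduct.mk_eq_inl_mul_inr]
  exact mul_mem (hF Ω' hΩ') (T.mem_range_incl Ω' h)

/-- The twisted product is in the class if the products over enough invariant subsets are. -/
theorem IsFJClass.twist_locally (hP : IsFJClass P)
    (h : ∀ F : Finset Ω, ∃ Ω' : SubMulAction H Ω, (∀ ω ∈ F, ω ∈ Ω') ∧ P (T.sub Ω').Prod) :
    P T.Prod := by
  classical
  refine hP.locally fun S => ?_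
  choose F hF using T.exists_finset
  obtain ⟨Ω', hΩ', hPΩ'⟩ := h (S.biUnion F)
  refine ⟨(T.incl Ω').range, fun x hx => hF x Ω' fun ω hω => hΩ' ω ?_,
    hP.range _ (T.incl_injective Ω') hPΩ'⟩
  exact Finset.mem_biUnion.2 ⟨x, hx, hω⟩

end

/-- Free products of arbitrarily many copies. -/
theorem IsFJClass.coprodI (hP : IsFJClass P) {J : Type} {N : Type} [Group N]
    (hN : P N) : P (CoprodI (fun _ : J => N)) := by
  classical
  let _ : MulAction (Multiplicative (Fin 1)) J := { smul := fun _ j => j
                                                    one_smul := fun _ => rfl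
                                                    mul_smul := fun _ _ _ => rfl }
  let T := Twist.triv (Multiplicative (Fin 1)) J N
  refine hP.of_injective (inl : CoprodI (fun _ : J => N) →* T.Prod) inl_injective ?_
  refine hP.twist_locally T fun F => ?_
  refine ⟨⟨(F : Set J), fun _ _ h => h⟩, fun ω hω => hω, ?_⟩
  have : Finite (⟨(F : Set J), fun _ _ h => h⟩ : SubMulAction (Multiplicative (Fin 1)) J) :=
    (F.finite_toSet).to_subtype
  exact hP.semidirect_finite _ (hP.coprodI_finite hN)

end Pool.Agent.FJ
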