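import Pool.Agent.Lib.MP_98022b_h71.Wr

/-!
# Directed systems with retractions
-/

set_option autoImplicit false

namespace Pool.Agent.FJ

/-- A presentation of `B` as a directed colimit of groups of the class, each of which contains
`C` as a retract. -/
structure RetSys (P : ∀ (G : Type) [Group G], Prop) {C B : Type} [Group C] [Group B]
    (j : C →* B) : Type 1 where
  /-- the index set -/
  ι : Type
  [pre : Preorder ι]
  [dir : IsDirectedOrder ι]
  [ne : Nonempty ι]
  /-- the groups -/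
  A : ι → Type
  [grp : ∀ i, Group (A i)]
  /-- the structure maps -/
  f : ∀ i k, i ≤ k → A i →* A k
  /-- the maps to the colimit -/
  g : ∀ i, A i →* B
  /-- the inclusions of `C` -/
  s : ∀ i, C →* A i
  /-- the retractions onto `C` -/
  r : ∀ i, A i →* C
  f_id : ∀ i x, f i i le_rfl x = x
  f_comp : ∀ i k l (hik : i ≤ k) (hkl : k ≤ l) x, f k l hkl (f i k hik x) = f i l (hik.trans hkl) x
  g_f : ∀ i k (hik : i ≤ k) x, g k (f i k hik x) = g i x
  surj : ∀ y, ∃ i x, g i x = y
  ker : ∀ i x, g i x = 1 → ∃ k, ∃ hik : i ≤ k, f i k hik x = 1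
  memP : ∀ i, P (A i)
  f_s : ∀ i k (hik : i ≤ k) x, f i k hik (s i x) = s k x
  g_s : ∀ i x, g i (s i x) = j x
  r_s : ∀ i x, r i (s i x) = x

namespace RetSys

attribute [instance] RetSys.pre RetSys.dir RetSys.ne RetSys.grp

variable {P : ∀ (G : Type) [Group G], Prop} {C B : Type} [Group C] [Group B] {j : C →* B}

theorem mem (hP : IsFJClass P) (E : RetSys P j) : P B :=
  hP.colimit E.A E.f E.g E.f_id E.f_comp E.g_f E.surj E.ker E.memP

/-- Two elements with the same image become equal. -/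
theorem eq_of_g (E : RetSys P j) {i : E.ι} {x y : E.A i} (h : E.g i x = E.g i y) :
    ∃ k, ∃ hik : i ≤ k, E.f i k hik x = E.f i k hik y := by
  obtain ⟨k, hik, hk⟩ := E.ker i (x * y⁻¹) (by rw [map_mul, map_inv, h, mul_inv_cancel])
  exact ⟨k, hik, by rwa [map_mul, map_inv, mul_inv_eq_one] at hk⟩

theorem exists_lift (E : RetSys P j) {Y : Type} [Finite Y] (b : Y → B) :
    ∃ i, ∃ a : Y → E.A i, ∀ y, E.g i (a y) = b y := by
  choose i x hx using fun y => E.surj (b y)
  obtain ⟨M, hM⟩ := Finite.exists_le i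
  exact ⟨M, fun y => E.f (i y) M (hM y) (x y), fun y => by rw [E.g_f, hx]⟩

theorem exists_kill (E : RetSys P j) {Y : Type} [Finite Y] {i : E.ι} (a : Y → E.A i)
    (h : ∀ y, E.g i (a y) = 1) : ∃ k, ∃ hik : i ≤ k, ∀ y, E.f i k hik (a y) = 1 := by
  choose k hk hx using fun y => E.ker i (a y) (h y)
  obtain ⟨M, hM⟩ := Finite.exists_le k
  obtain ⟨M', hM'1, hM'2⟩ := exists_ge_ge M i
  refine ⟨M', hM'2, fun y => ?_⟩
  rw [← E.f_comp i (k y) M' (hk y) ((hM y).trans hM'1), hx, map_one]

/-- Wreath products with a finite symmetric group. -/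
def wr (hP : IsFJClass P) (E : RetSys P j) (Y : Type) [Finite Y] :
    RetSys P (Wr.map j : Wr C Y →* Wr B Y) where
  ι := E.ι
  A i := Wr (E.A i) Y
  f i k h := Wr.map (E.f i k h)
  g i := Wr.map (E.g i)
  s i := Wr.map (E.s i)
  r i := Wr.map (E.r i)
  f_id i x := Wr.ext rfl (funext fun y => E.f_id i _)
  f_comp i k l h1 h2 x := Wr.ext rfl (funext fun y => E.f_comp i k l h1 h2 _)
  g_f i k h x := Wr.ext rfl (funext fun y => E.g_f i k h _)
  surj x := by
    obtain ⟨i, a, ha⟩ := E.exists_lift x.s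
    exact ⟨i, ⟨x.perm, a⟩, Wr.ext rfl (funext ha)⟩
  ker i x hx := by
    obtain ⟨k, hk, h⟩ := E.exists_kill x.s
      (fun y => congrArg (fun z : Wr B Y => z.s y) hx)
    exact ⟨k, hk, Wr.ext (show x.perm = 1 from congrArg Wr.perm hx) (funext h)⟩
  memP i := Wr.mem hP (E.memP i)
  f_s i k h x := Wr.ext rfl (funext fun y => E.f_s i k h _)
  g_s i x := Wr.ext rfl (funext fun y => E.g_s i _)
  r_s i x := Wr.ext rfl (funext fun y => E.r_s i _)

/-- Transport along isomorphisms. -/
def congr {C' B' : Type} [Group C'] [Group B'] {j' : C' →* B'} (E : RetSys P j) (c : C ≃* C')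
    (e : B ≃* B') (h : ∀ x, j' (c x) = e (j x)) : RetSys P j' where
  ι := E.ι
  A := E.A
  f := E.f
  g i := e.toMonoidHom.comp (E.g i)
  s i := (E.s i).comp c.symm.toMonoidHom
  r i := c.toMonoidHom.comp (E.r i)
  f_id := E.f_id
  f_comp := E.f_comp
  g_f i k h x := congrArg e (E.g_f i k h x)
  surj y := by
    obtain ⟨i, x, hx⟩ := E.surj (e.symm y)
    exact ⟨i, x, by simp [hx]⟩
  ker i x hx := E.ker i x (by
    have : e (E.g i x) = 1 := hx
    simpa using this)
  memP := E.memP
  f_s i k h x := E.f_s i k h _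
  g_s i x := by
    have := h (c.symm x)
    simp only [MulEquiv.apply_symm_apply] at this
    simp [E.g_s, this]
  r_s i x := by simp [E.r_s]

/-- The constant system, for the trivial group. -/
def const (hB : P B) [Subsingleton C] (j : C →* B) : RetSys P j where
  ι := Unit
  A _ := B
  f _ _ _ := MonoidHom.id B
  g _ := MonoidHom.id B
  s _ := j
  r _ := 1
  f_id _ _ := rfl
  f_comp _ _ _ _ _ _ := rfl
  g_f _ _ _ _ := rfl
  surj y := ⟨(), y, rfl⟩
  ker _ _ hx := ⟨(), le_rfl, hx⟩
  memP _ := hB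
  f_s _ _ _ _ := rfl
  g_s _ _ := rfl
  r_s _ _ := Subsingleton.elim _ _

end RetSys

end Pool.Agent.FJ
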