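import Pool.Agent.Lib.MP_98022b_h71.Base

/-!
# Amalgams along a retract

For an injective homomorphism `c : C → H` and a group `A` with homomorphisms `s : C → A`,
`ρ : A → C`, `ρ ∘ s = id`, the amalgam `H *_C A` is realised as a twisted free permutational
product.
-/

set_option autoImplicit false

namespace Pool.Agent.FJ

open Monoid SemidirectProduct

variable {P : ∀ (G : Type) [Group G], Prop}

/-- The data of an amalgam along a retract. -/
structure RData (H C A : Type) [Group H] [Group C] [Group A] where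
  /-- the inclusion in the first group -/
  c : C →* H
  c_inj : Function.Injective c
  /-- the inclusion in the second group -/
  s : C →* A
  /-- the retraction -/
  ρ : A →* C
  ρ_s : ∀ x, ρ (s x) = x

namespace RData

variable {H C A : Type} [Group H] [Group C] [Group A] (D : RData H C A)

/-- The coset space. -/
abbrev Ω : Type := H ⧸ D.c.range

/-- Coset representatives. -/
noncomputable def σ (ω : D.Ω) : H := Quotient.out ω

theorem mk_σ (ω : D.Ω) : (QuotientGroup.mk (D.σ ω) : D.Ω) = ω := Quotient.out_eq' ω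

theorem elt_mem (h : H) (ω : D.Ω) : (D.σ (h • ω))⁻¹ * (h * D.σ ω) ∈ D.c.range := by
  rw [← QuotientGroup.eq, mk_σ]
  conv_lhs => rw [← D.mk_σ ω]
  rfl

/-- The element of `C` attached to `h` and `ω`. -/
noncomputable def ci (h : H) (ω : D.Ω) : C := (D.elt_mem h ω).choose

theorem c_ci (h : H) (ω : D.Ω) : D.c (D.ci h ω) = (D.σ (h • ω))⁻¹ * (h * D.σ ω) :=
  (D.elt_mem h ω).choose_spec

theorem ci_mul (h h' : H) (ω : D.Ω) : D.ci (h * h') ω = D.ci h (h' • ω) * D.ci h' ω := by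
  apply D.c_inj
  rw [map_mul, c_ci, c_ci, c_ci, mul_smul]
  simp only [mul_assoc, mul_inv_cancel_left]

/-- The action of `C` on the kernel of the retraction. -/
def φ : C →* MulAut D.ρ.ker := (MulAut.conjNormal (H := D.ρ.ker)).comp D.s

theorem φ_apply (x : C) (k : D.ρ.ker) : ((D.φ x k : D.ρ.ker) : A) = D.s x * k * (D.s x)⁻¹ :=
  MulAut.conjNormal_apply _ _

/-- The twisted data. -/
noncomputable def T : Twist H D.Ω D.ρ.ker where
  κ h ω := D.φ (D.ci h ω)
  map_mul h h' ω := by rw [ci_mul, map_mul]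

/-- The amalgam `H *_C A`. -/
abbrev Am : Type := D.T.Prod

/-- The map of `H` in the amalgam. -/
noncomputable def jH : H →* D.Am := inr

/-- The base point. -/
def ω0 : D.Ω := QuotientGroup.mk 1

theorem σ0_mem : D.σ D.ω0 ∈ D.c.range := by
  have h : (QuotientGroup.mk (D.σ D.ω0) : D.Ω) = QuotientGroup.mk 1 := D.mk_σ D.ω0
  have := QuotientGroup.eq.1 h
  rw [mul_one] at this
  exact (Subgroup.inv_mem_iff _).1 this

theorem smul_ω0 {h : H} (hh : h ∈ D.c.range) : h • D.ω0 = D.ω0 := by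
  show (QuotientGroup.mk (h * 1) : D.Ω) = QuotientGroup.mk 1
  rw [QuotientGroup.eq, mul_one, mul_one]
  exact inv_mem hh

/-- The map of the kernel in the amalgam. -/
noncomputable def jK : D.ρ.ker →* D.Am :=
  (MulAut.conj (D.jH (D.σ D.ω0)⁻¹)).toMonoidHom.comp (inl.comp (gen D.ω0))

theorem jK_apply (k : D.ρ.ker) :
    D.jK k = D.jH (D.σ D.ω0)⁻¹ * inl (gen D.ω0 k) * (D.jH (D.σ D.ω0)⁻¹)⁻¹ := rfl

theorem jK_φ (x : C) (k : D.ρ.ker) : D.jK (D.φ x k) = D.jH (D.c x) * D.jK k * (D.jH (D.c x))⁻¹ := by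
  obtain ⟨y, hy⟩ := D.σ0_mem
  set σ0 := D.σ D.ω0 with hσ0
  let h : H := σ0 * D.c x * σ0⁻¹
  have hmem : h ∈ D.c.range := ⟨y * x * y⁻¹, by rw [map_mul, map_mul, map_inv, hy]⟩
  have hω : h • D.ω0 = D.ω0 := D.smul_ω0 hmem
  have hci : D.ci h D.ω0 = x := by
    apply D.c_inj
    rw [c_ci, hω, ← hσ0]
    simp only [h]
    group
  have h1 := D.T.conj_gen h D.ω0 k
  have h2 : D.T.κ h D.ω0 = D.φ x := by
    show D.φ (D.ci h D.ω0) = _
    rw [hci]
  rw [hω, h2] at h1
  have h3 : (inr h : D.Am) = D.jH σ0 * D.jH (D.c x) * (D.jH σ0)⁻¹ := by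
    rw [← map_inv, ← map_mul, ← map_mul]; rfl
  rw [jK_apply, jK_apply, h1, h3, ← hσ0, map_inv]
  group

/-- Homomorphisms out of the amalgam. -/
noncomputable def lift {G : Type} [Group G] (α : H →* G) (β : A →* G)
    (hαβ : ∀ x, β (D.s x) = α (D.c x)) : D.Am →* G :=
  D.T.lift α (fun ω => (MulAut.conj (α (D.σ ω))).toMonoidHom.comp (β.comp D.ρ.ker.subtype)) (by
    intro h ω k
    have h1 : β ((D.T.κ h ω k : D.ρ.ker) : A) =
        α (D.c (D.ci h ω)) * β k * (α (D.c (D.ci h ω)))⁻¹ := by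
      show β ((D.φ (D.ci h ω) k : D.ρ.ker) : A) = _
      rw [φ_apply, map_mul, map_mul, map_inv, hαβ]
    show α (D.σ (h • ω)) * β ((D.T.κ h ω k : D.ρ.ker) : A) * (α (D.σ (h • ω)))⁻¹ =
      α h * (α (D.σ ω) * β k * (α (D.σ ω))⁻¹) * (α h)⁻¹
    rw [h1, c_ci, map_mul, map_mul, map_inv]
    group)

theorem lift_jH {G : Type} [Group G] (α : H →* G) (β : A →* G)
    (hαβ : ∀ x, β (D.s x) = α (D.c x)) (h : H) : D.lift α β hαβ (D.jH h) = α h :=
  D.T.lift_inr _ _ _ h

theorem lift_jK {G : Type} [Group G] (α : H →* G) (β : A →* G)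
    (hαβ : ∀ x, β (D.s x) = α (D.c x)) (k : D.ρ.ker) : D.lift α β hαβ (D.jK k) = β k := by
  have h1 : D.lift α β hαβ (inl (gen D.ω0 k)) = α (D.σ D.ω0) * β k * (α (D.σ D.ω0))⁻¹ :=
    D.T.lift_gen _ _ _ _ _
  rw [jK_apply]
  simp only [map_mul, map_inv, lift_jH, h1]
  group

/-- The element of the kernel. -/
def kp (a : A) : D.ρ.ker := ⟨a * (D.s (D.ρ a))⁻¹, by
  rw [MonoidHom.mem_ker, map_mul, map_inv, ρ_s, mul_inv_cancel]⟩

theorem kp_mul (a b : A) : D.kp (a * b) = D.kp a * D.φ (D.ρ a) (D.kp b) := by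
  apply Subtype.ext
  rw [Subgroup.coe_mul, φ_apply]
  simp only [kp, map_mul]
  group

theorem kp_ker (k : D.ρ.ker) : D.kp (k : A) = k := by
  apply Subtype.ext
  have : D.ρ (k : A) = 1 := k.2
  simp [kp, this]

theorem kp_s (x : C) : D.kp (D.s x) = 1 := by
  apply Subtype.ext
  simp [kp, ρ_s]

/-- The map of `A` in the amalgam. -/
noncomputable def jA : A →* D.Am where
  toFun a := D.jK (D.kp a) * D.jH (D.c (D.ρ a))
  map_one' := by
    have : D.kp (1 : A) = 1 := by
      have := D.kp_s 1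
      rwa [map_one] at this
    rw [this]
    simp
  map_mul' a b := by
    rw [kp_mul, map_mul, jK_φ]
    simp only [map_mul]
    group

theorem jA_apply (a : A) : D.jA a = D.jK (D.kp a) * D.jH (D.c (D.ρ a)) := rfl

theorem jA_s (x : C) : D.jA (D.s x) = D.jH (D.c x) := by
  rw [jA_apply, kp_s, map_one, one_mul, ρ_s]

theorem jA_ker (k : D.ρ.ker) : D.jA (k : A) = D.jK k := by
  have : D.ρ (k : A) = 1 := k.2
  rw [jA_apply, kp_ker, this, map_one, map_one, mul_one]

theorem lift_jA {G : Type} [Group G] (α : H →* G) (β : A →* G)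
    (hαβ : ∀ x, β (D.s x) = α (D.c x)) (a : A) : D.lift α β hαβ (D.jA a) = β a := by
  rw [jA_apply, map_mul, lift_jK, lift_jH, ← hαβ, ← map_mul]
  simp [kp]

theorem gen_eq (ω : D.Ω) (k : D.ρ.ker) :
    (inl (gen ω k) : D.Am) = D.jH (D.σ ω) * D.jK k * (D.jH (D.σ ω))⁻¹ := by
  have hω : D.σ ω • D.ω0 = ω := by
    show (QuotientGroup.mk (D.σ ω * 1) : D.Ω) = ω
    rw [mul_one, mk_σ]
  have hh : (D.σ ω * (D.σ D.ω0)⁻¹) • D.ω0 = ω := by
    rw [mul_smul, D.smul_ω0 (inv_mem D.σ0_mem), hω]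
  have h1 := D.T.conj_gen (D.σ ω * (D.σ D.ω0)⁻¹) D.ω0 k
  have hci : D.ci (D.σ ω * (D.σ D.ω0)⁻¹) D.ω0 = 1 := by
    apply D.c_inj
    rw [c_ci, hh, map_one]
    group
  have h2 : D.T.κ (D.σ ω * (D.σ D.ω0)⁻¹) D.ω0 = 1 := by
    show D.φ (D.ci _ D.ω0) = _
    rw [hci, map_one]
  rw [hh, h2] at h1
  have h3 : (inr (D.σ ω * (D.σ D.ω0)⁻¹) : D.Am) = D.jH (D.σ ω) * (D.jH (D.σ D.ω0))⁻¹ := by
    rw [← map_inv, ← map_mul]; rfl
  have h4 : (inl (gen ω k) : D.Am) =
      D.jH (D.σ ω) * (D.jH (D.σ D.ω0))⁻¹ * inl (gen D.ω0 k) *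
        (D.jH (D.σ ω) * (D.jH (D.σ D.ω0))⁻¹)⁻¹ := by
    rw [← h3]; exact h1
  rw [h4, jK_apply, map_inv]
  group

theorem hom_ext {G : Type} [Group G] {f g : D.Am →* G} (h1 : ∀ h, f (D.jH h) = g (D.jH h))
    (h2 : ∀ a, f (D.jA a) = g (D.jA a)) : f = g := by
  refine D.T.hom_ext h1 fun ω k => ?_
  rw [gen_eq, map_mul, map_mul, map_mul, map_mul, map_inv, map_inv, h1, ← jA_ker, h2]

/-- Every element is in the subgroup generated by the two images. -/
theorem closure_eq_top : D.jH.range ⊔ D.jA.range = ⊤ := by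
  rw [eq_top_iff]
  set S := D.jH.range ⊔ D.jA.range
  let f : D.Am →* S := D.lift
    (D.jH.codRestrict S fun h => Subgroup.mem_sup_left ⟨h, rfl⟩)
    (D.jA.codRestrict S fun a => Subgroup.mem_sup_right ⟨a, rfl⟩)
    (fun x => Subtype.ext (D.jA_s x))
  have hf : S.subtype.comp f = MonoidHom.id _ := by
    refine D.hom_ext (fun h => ?_) (fun a => ?_)
    · rw [MonoidHom.comp_apply, lift_jH]; rfl
    · rw [MonoidHom.comp_apply, lift_jA]; rfl
  intro x _
  have := DFunLike.congr_fun hf x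
  rw [MonoidHom.comp_apply, MonoidHom.id_apply] at this
  rw [← this]
  exact (f x).2

/-- The retraction onto `H`. -/
noncomputable def retr : D.Am →* H := D.lift (MonoidHom.id H) (D.c.comp D.ρ) (fun x => by
  simp [ρ_s])

theorem retr_jH (h : H) : D.retr (D.jH h) = h := D.lift_jH _ _ _ h

/-- The amalgam is in the class. -/
theorem mem (hP : IsFJClass P) (hH : P H) (hA : P A) : P D.Am := by
  refine hP.twist hH D.T fun ω => ?_
  have key : ∀ h : MulAction.stabilizer H ω, (h : H) • ω = ω := fun h => h.2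
  refine hP.of_injective (H := A)
    { toFun := fun x => (x.left : A) * D.s (D.ci x.right ω)
      map_one' := ?_
      map_mul' := fun x y => ?_ } ?_ hA
  · have : D.ci 1 ω = 1 := by
      apply D.c_inj
      rw [c_ci, one_smul, one_mul, inv_mul_cancel, map_one]
    simp [this]
  · have h1 : D.ci ((x.right * y.right : MulAction.stabilizer H ω) : H) ω =
        D.ci x.right ω * D.ci y.right ω := by
      rw [Subgroup.coe_mul, ci_mul, key]
    have h2 : ((D.T.stab ω x.right y.left : D.ρ.ker) : A) =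
        D.s (D.ci x.right ω) * y.left * (D.s (D.ci x.right ω))⁻¹ := D.φ_apply _ _
    simp only [SemidirectProduct.mul_left, SemidirectProduct.mul_right, Subgroup.coe_mul] at h1 ⊢
    rw [h1, h2, map_mul]
    group
  · intro x y hxy
    simp only [MonoidHom.coe_mk, OneHom.coe_mk] at hxy
    have h1 := congrArg D.ρ hxy
    have hx : D.ρ (x.left : A) = 1 := x.left.2
    have hy : D.ρ (y.left : A) = 1 := y.left.2
    rw [map_mul, map_mul, hx, hy, one_mul, one_mul, ρ_s, ρ_s] at h1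
    rw [h1] at hxy
    have h2 := mul_right_cancel hxy
    refine SemidirectProduct.ext (Subtype.ext h2) (Subtype.ext ?_)
    have h3 := congrArg D.c h1
    rw [c_ci, c_ci, key, key] at h3
    exact mul_right_cancel (mul_left_cancel h3)

end RData

end Pool.Agent.FJ
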