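import Pool.Agent.Lib.MP_98022b_h71.Wr

/-!
# Self-similar structures
-/

set_option autoImplicit false

namespace Pool.Agent.FJ

/-- A recursion `Γ → Γ ≀ Sym(Y)`. -/
structure SS (Y Γ : Type) [Group Γ] where
  /-- the recursion -/
  ψ : Γ →* Wr Γ Y

namespace SS

variable {Y Γ : Type} [Group Γ] (R : SS Y Γ)

/-- The permutation of the first level. -/
def perm (γ : Γ) : Equiv.Perm Y := (R.ψ γ).perm

/-- The section. -/
def sec (γ : Γ) (y : Y) : Γ := (R.ψ γ).s y

theorem perm_mul (a b : Γ) : R.perm (a * b) = R.perm a * R.perm b := by simp [perm]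

theorem sec_mul (a b : Γ) (y : Y) : R.sec (a * b) y = R.sec a (R.perm b y) * R.sec b y := by
  simp [perm, sec]

theorem perm_one : R.perm 1 = 1 := by simp [perm]

theorem sec_one (y : Y) : R.sec 1 y = 1 := by simp [sec]

/-- The action on words. -/
def act : Γ → List Y → List Y
  | _, [] => []
  | γ, y :: v => R.perm γ y :: act (R.sec γ y) v

/-- The section at a word. -/
def secL : Γ → List Y → Γ
  | γ, [] => γ
  | γ, y :: v => secL (R.sec γ y) v

@[simp] theorem act_nil (γ : Γ) : R.act γ [] = [] := rfl
@[simp] theorem act_cons (γ : Γ) (y : Y) (v : List Y) :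
    R.act γ (y :: v) = R.perm γ y :: R.act (R.sec γ y) v := rfl
@[simp] theorem secL_nil (γ : Γ) : R.secL γ [] = γ := rfl
@[simp] theorem secL_cons (γ : Γ) (y : Y) (v : List Y) :
    R.secL γ (y :: v) = R.secL (R.sec γ y) v := rfl

@[simp] theorem length_act (γ : Γ) (v : List Y) : (R.act γ v).length = v.length := by
  induction v generalizing γ with
  | nil => rfl
  | cons y v ih => simp [ih]

theorem act_mul (a b : Γ) (v : List Y) : R.act (a * b) v = R.act a (R.act b v) := by
  induction v generalizing a b with
  | nil => rfl
  | cons y v ih => simp [perm_mul, sec_mul, ih]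

theorem secL_mul (a b : Γ) (v : List Y) :
    R.secL (a * b) v = R.secL a (R.act b v) * R.secL b v := by
  induction v generalizing a b with
  | nil => rfl
  | cons y v ih => simp [sec_mul, ih]

theorem act_one (v : List Y) : R.act 1 v = v := by
  induction v with
  | nil => rfl
  | cons y v ih => simp [perm_one, sec_one, ih]

theorem secL_one (v : List Y) : R.secL 1 v = 1 := by
  induction v with
  | nil => rfl
  | cons y v ih => simp [sec_one, ih]

theorem act_append (γ : Γ) (u v : List Y) :
    R.act γ (u ++ v) = R.act γ u ++ R.act (R.secL γ u) v := by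
  induction u generalizing γ with
  | nil => rfl
  | cons y u ih => simp [ih]

theorem secL_append (γ : Γ) (u v : List Y) : R.secL γ (u ++ v) = R.secL (R.secL γ u) v := by
  induction u generalizing γ with
  | nil => rfl
  | cons y u ih => simp [ih]

theorem act_inv_act (γ : Γ) (v : List Y) : R.act γ⁻¹ (R.act γ v) = v := by
  rw [← act_mul, inv_mul_cancel, act_one]

theorem act_act_inv (γ : Γ) (v : List Y) : R.act γ (R.act γ⁻¹ v) = v := by
  rw [← act_mul, mul_inv_cancel, act_one]

theorem secL_inv (γ : Γ) (v : List Y) : R.secL γ⁻¹ v = (R.secL γ (R.act γ⁻¹ v))⁻¹ := by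
  have h := R.secL_mul γ γ⁻¹ v
  rw [mul_inv_cancel, secL_one] at h
  exact eq_inv_of_mul_eq_one_right h.symm

/-- Compatibility of a homomorphism with the recursions. -/
def Compat {Δ : Type} [Group Δ] (R' : SS Y Δ) (f : Γ →* Δ) : Prop :=
  (Wr.map f).comp R.ψ = R'.ψ.comp f

section

variable {R} {Δ : Type} [Group Δ] {R' : SS Y Δ} {f : Γ →* Δ} (hf : R.Compat R' f)
include hf

theorem Compat.perm (γ : Γ) : R'.perm (f γ) = R.perm γ :=
  (congrArg Wr.perm (DFunLike.congr_fun hf γ)).symm

theorem Compat.sec (γ : Γ) (y : Y) : R'.sec (f γ) y = f (R.sec γ y) :=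
  (congrArg (fun z => z.s y) (DFunLike.congr_fun hf γ)).symm

theorem Compat.act (γ : Γ) (v : List Y) : R'.act (f γ) v = R.act γ v := by
  induction v generalizing γ with
  | nil => rfl
  | cons y v ih => simp [hf.perm, hf.sec, ih]

theorem Compat.secL (γ : Γ) (v : List Y) : R'.secL (f γ) v = f (R.secL γ v) := by
  induction v generalizing γ with
  | nil => rfl
  | cons y v ih => simp [hf.sec, ih]

end

end SS

/-- Words of length `n`. -/
abbrev Words (Y : Type) (n : ℕ) : Type := {v : List Y // v.length = n}

instance (Y : Type) [Finite Y] (n : ℕ) : Finite (Words Y n) := by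
  classical
  have := Fintype.ofFinite Y
  exact (inferInstance : Finite (List.Vector Y n))

/-- The tree group: a group with an isomorphism `W ≅ W ≀ Sym(Y)` in which an element is determined
by its recursion at one level. -/
structure TreeSS (Y W : Type) [Group W] extends SS Y W where
  bij : Function.Bijective ψ

namespace TreeSS

variable {Y W : Type} [Group W] (S : TreeSS Y W)

/-- The element with given permutation and sections. -/
noncomputable def cons (π : Equiv.Perm Y) (s : Y → W) : W := (S.bij.2 ⟨π, s⟩).choose

@[simp] theorem perm_cons (π : Equiv.Perm Y) (s : Y → W) : S.perm (S.cons π s) = π :=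
  congrArg Wr.perm (S.bij.2 ⟨π, s⟩).choose_spec

@[simp] theorem sec_cons (π : Equiv.Perm Y) (s : Y → W) (y : Y) : S.sec (S.cons π s) y = s y :=
  congrArg (fun z => z.s y) (S.bij.2 ⟨π, s⟩).choose_spec

theorem ext_sec {g h : W} (h1 : S.perm g = S.perm h) (h2 : ∀ y, S.sec g y = S.sec h y) : g = h :=
  S.bij.1 (Wr.ext h1 (funext h2))

theorem ext_level (n : ℕ) {g h : W} (h1 : ∀ v : List Y, v.length = n → S.act g v = S.act h v)
    (h2 : ∀ v : List Y, v.length = n → S.secL g v = S.secL h v) [Nonempty Y] : g = h := by
  induction n generalizing g h with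
  | zero => simpa using h2 [] rfl
  | succ n ih =>
    refine S.ext_sec (Equiv.ext fun y => ?_) fun y => ?_
    · obtain ⟨z⟩ := ‹Nonempty Y›
      have := h1 (y :: List.replicate n z) (by simp)
      simp only [SS.act_cons, List.cons.injEq] at this
      exact this.1
    · refine ih (fun v hv => ?_) (fun v hv => ?_)
      · have := h1 (y :: v) (by simp [hv])
        simp only [SS.act_cons, List.cons.injEq] at this
        exact this.2
      · exact h2 (y :: v) (by simp [hv])

/-- The element acting like `g` on words of length `n`, with given sections. -/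
noncomputable def build : ℕ → W → (List Y → W) → W
  | 0, _, b => b []
  | n + 1, g, b => S.cons (S.perm g) fun y => build n (S.sec g y) fun v => b (y :: v)

theorem act_build (n : ℕ) (g : W) (b : List Y → W) (v : List Y) (hv : v.length = n) :
    S.act (S.build n g b) v = S.act g v := by
  induction n generalizing g b v with
  | zero => rw [List.length_eq_zero_iff] at hv; subst hv; rfl
  | succ n ih =>
    cases v with
    | nil => simp at hv
    | cons y v => simp [build, ih _ _ v (by simpa using hv)]

theorem secL_build (n : ℕ) (g : W) (b : List Y → W) (v : List Y) (hv : v.length = n) :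
    S.secL (S.build n g b) v = b v := by
  induction n generalizing g b v with
  | zero => rw [List.length_eq_zero_iff] at hv; subst hv; rfl
  | succ n ih =>
    cases v with
    | nil => simp at hv
    | cons y v => simp [build, ih _ _ v (by simpa using hv)]

end TreeSS

end Pool.Agent.FJ
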