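import Pool.Agent.Lib.MP_98022b_h71.Retract
import Pool.Agent.Lib.MP_98022b_h71.Lev
import Pool.Agent.Lib.MP_98022b_h71.RetSys

/-!
# The induction step
-/

set_option autoImplicit false

namespace Pool.Agent.FJ

variable {P : ∀ (G : Type) [Group G], Prop}

/-- Directed data: `N` is a subgroup closed under sections and their inverse operation, `B` is the
group of the directed elements with sections in `N`, and `C = N ⊓ B`. -/
structure DirData {Y W : Type} [Group W] (S : TreeSS Y W) (y0 : Y) where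
  N : Subgroup W
  B : Subgroup W
  C : Subgroup W
  hN : ∀ g, g ∈ N ↔ ∀ y, S.sec g y ∈ N
  hB : ∀ b, b ∈ B ↔ S.perm b y0 = y0 ∧ S.sec b y0 = b ∧ ∀ y, y ≠ y0 → S.sec b y ∈ N
  hC : C = N ⊓ B

namespace DirData

variable {Y W : Type} [Group W] {S : TreeSS Y W} {y0 : Y} (E : DirData S y0)

theorem hCN : E.C ≤ E.N := by rw [E.hC]; exact inf_le_left
theorem hCB : E.C ≤ E.B := by rw [E.hC]; exact inf_le_right

/-- The contraction property, for all models of the amalgam. -/
def Contracts : Prop :=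
  ∀ (A Γ : Type) [Group A] [Group Γ] (g : A →* E.B) (s : E.C →* A)
    (inL : E.N →* Γ) (inA : A →* Γ) (lam : Γ →* W) (R : SS Y Γ),
    (∀ c : E.C, ((g (s c) : E.B) : W) = c) →
    (∀ c : E.C, inA (s c) = inL (Subgroup.inclusion E.hCN c)) →
    (∀ m : E.N, lam (inL m) = m) → (∀ a : A, lam (inA a) = (g a : E.B)) →
    R.Compat S.toSS lam →
    (∀ (m : E.N) (y : Y) (h : S.sec (m : W) y ∈ E.N), R.sec (inL m) y = inL ⟨S.sec (m : W) y, h⟩) →
    (∀ a : A, R.sec (inA a) y0 = inA a) →
    (∀ (a : A) (y : Y), y ≠ y0 → ∀ h : S.sec ((g a : E.B) : W) y ∈ E.N,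
      R.sec (inA a) y = inL ⟨S.sec ((g a : E.B) : W) y, h⟩) →
    inL.range ⊔ inA.range = ⊤ →
    ∀ w : Γ, ∃ n : ℕ, ∀ v : List Y, v.length = n →
      ∃ (m : E.N) (a : A) (m' : E.N), R.secL w v = inL m * inA a * inL m'

theorem secN {m : W} (hm : m ∈ E.N) (y : Y) : S.sec m y ∈ E.N := (E.hN m).1 hm y

theorem secLN {m : W} (hm : m ∈ E.N) (v : List Y) : S.secL m v ∈ E.N := by
  induction v generalizing m with
  | nil => exact hm
  | cons y v ih => exact ih (E.secN hm y)

theorem mem_of_secL (n : ℕ) {m : W} (h : ∀ v : List Y, v.length = n → S.secL m v ∈ E.N) :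
    m ∈ E.N := by
  induction n generalizing m with
  | zero => exact h [] rfl
  | succ n ih =>
    rw [E.hN]
    exact fun y => ih fun v hv => h (y :: v) (by simp [hv])

/-- The recursion of `N`. -/
def ψN : E.N →* Wr E.N Y where
  toFun m := ⟨S.perm m, fun y => ⟨S.sec m y, E.secN m.2 y⟩⟩
  map_one' := Wr.ext S.perm_one (funext fun y => Subtype.ext (S.sec_one y))
  map_mul' a b := Wr.ext (S.perm_mul a b) (funext fun y => Subtype.ext (S.sec_mul a b y))

variable (sys : RetSys P (Subgroup.inclusion E.hCB))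

/-- The amalgam data. -/
def D (i : sys.ι) : RData E.N E.C (sys.A i) where
  c := Subgroup.inclusion E.hCN
  c_inj := Subgroup.inclusion_injective _
  s := sys.s i
  ρ := sys.r i
  ρ_s := sys.r_s i

theorem g_s_coe (i : sys.ι) (x : E.C) : ((sys.g i (sys.s i x) : E.B) : W) = x := by
  rw [sys.g_s]; rfl

/-- The map of the amalgam to the tree group. -/
noncomputable def lam (i : sys.ι) : (E.D sys i).Am →* W :=
  (E.D sys i).lift E.N.subtype (E.B.subtype.comp (sys.g i)) (fun x => E.g_s_coe sys i x)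

theorem lam_jH (i : sys.ι) (m : E.N) : E.lam sys i ((E.D sys i).jH m) = m :=
  (E.D sys i).lift_jH _ _ _ m

theorem lam_jA (i : sys.ι) (a : sys.A i) : E.lam sys i ((E.D sys i).jA a) = (sys.g i a : E.B) :=
  (E.D sys i).lift_jA _ _ _ a

theorem permB {b : W} (hb : b ∈ E.B) : S.perm b y0 = y0 := ((E.hB b).1 hb).1
theorem secB0 {b : W} (hb : b ∈ E.B) : S.sec b y0 = b := ((E.hB b).1 hb).2.1
theorem secB {b : W} (hb : b ∈ E.B) {y : Y} (hy : y ≠ y0) : S.sec b y ∈ E.N :=
  ((E.hB b).1 hb).2.2 y hy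

open Classical in
/-- The recursion on the second factor. -/
noncomputable def ψA (i : sys.ι) : sys.A i →* Wr (E.D sys i).Am Y where
  toFun a := ⟨S.perm (sys.g i a : E.B), fun y => if h : y = y0 then (E.D sys i).jA a else
    (E.D sys i).jH ⟨S.sec (sys.g i a : E.B) y, E.secB (sys.g i a).2 h⟩⟩
  map_one' := by
    refine Wr.ext (by simp [S.perm_one]) (funext fun y => ?_)
    by_cases h : y = y0
    · simp [h]
    · simp only [h, dif_neg, not_false_iff, map_one, Wr.one_s]
      rw [← map_one (E.D sys i).jH]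
      congr 1
      apply Subtype.ext
      simp [S.sec_one]
  map_mul' a b := by
    refine Wr.ext (by simp [S.perm_mul]) (funext fun y => ?_)
    have hb0 : S.perm ((sys.g i b : E.B) : W) y0 = y0 := E.permB (sys.g i b).2
    by_cases h : y = y0
    · subst h
      simp [hb0]
    · have h' : S.perm ((sys.g i b : E.B) : W) y ≠ y0 := fun h'' => h
        ((S.perm ((sys.g i b : E.B) : W)).injective (h''.trans hb0.symm))
      simp only [Wr.mul_s, h, h', dif_neg, not_false_iff]
      rw [← map_mul]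
      congr 1
      apply Subtype.ext
      simp [S.sec_mul]

open Classical in
theorem ψ_agree (i : sys.ι) (x : E.C) : E.ψA sys i ((E.D sys i).s x) =
    ((Wr.map (E.D sys i).jH).comp E.ψN) ((E.D sys i).c x) := by
  have hx : ((sys.g i (sys.s i x) : E.B) : W) = x := E.g_s_coe sys i x
  refine Wr.ext ?_ (funext fun y => ?_)
  · show S.perm ((sys.g i (sys.s i x) : E.B) : W) = S.perm (x : W)
    rw [hx]
  · show (if h : y = y0 then (E.D sys i).jA (sys.s i x) else
      (E.D sys i).jH ⟨S.sec (sys.g i (sys.s i x) : E.B) y, E.secB (sys.g i (sys.s i x)).2 h⟩) =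
      (E.D sys i).jH ⟨S.sec (x : W) y, E.secN (E.hCN x.2) y⟩
    by_cases h : y = y0
    · simp only [h, dif_pos]
      have h1 : (E.D sys i).jA (sys.s i x) = (E.D sys i).jH (Subgroup.inclusion E.hCN x) :=
        (E.D sys i).jA_s x
      rw [h1]
      congr 1
      apply Subtype.ext
      exact (E.secB0 (E.hCB x.2)).symm
    · simp only [h, dif_neg, not_false_iff]
      congr 1
      apply Subtype.ext
      show S.sec ((sys.g i (sys.s i x) : E.B) : W) y = S.sec (x : W) y
      rw [hx]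

/-- The recursion of the amalgam. -/
noncomputable def R (i : sys.ι) : SS Y (E.D sys i).Am where
  ψ := (E.D sys i).lift ((Wr.map (E.D sys i).jH).comp E.ψN) (E.ψA sys i) (E.ψ_agree sys i)

theorem ψ_jH (i : sys.ι) (m : E.N) : (E.R sys i).ψ ((E.D sys i).jH m) =
    Wr.map (E.D sys i).jH (E.ψN m) := (E.D sys i).lift_jH _ _ (E.ψ_agree sys i) m

theorem ψ_jA (i : sys.ι) (a : sys.A i) : (E.R sys i).ψ ((E.D sys i).jA a) = E.ψA sys i a :=
  (E.D sys i).lift_jA _ _ (E.ψ_agree sys i) a

theorem sec_jH (i : sys.ι) (m : E.N) (y : Y) : (E.R sys i).sec ((E.D sys i).jH m) y =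
    (E.D sys i).jH ⟨S.sec m y, E.secN m.2 y⟩ := by
  rw [SS.sec, ψ_jH]; rfl

theorem sec_jA0 (i : sys.ι) (a : sys.A i) : (E.R sys i).sec ((E.D sys i).jA a) y0 =
    (E.D sys i).jA a := by
  rw [SS.sec, ψ_jA]
  simp [ψA]

theorem sec_jA (i : sys.ι) (a : sys.A i) {y : Y} (hy : y ≠ y0) :
    (E.R sys i).sec ((E.D sys i).jA a) y =
      (E.D sys i).jH ⟨S.sec (sys.g i a : E.B) y, E.secB (sys.g i a).2 hy⟩ := by
  rw [SS.sec, ψ_jA]
  simp [ψA, hy]

theorem secL_jH (i : sys.ι) (m : E.N) (v : List Y) : (E.R sys i).secL ((E.D sys i).jH m) v =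
    (E.D sys i).jH ⟨S.secL m v, E.secLN m.2 v⟩ := by
  induction v generalizing m with
  | nil => rfl
  | cons y v ih => rw [SS.secL_cons, sec_jH, ih]; rfl

theorem compat (i : sys.ι) : (E.R sys i).Compat S.toSS (E.lam sys i) := by
  refine (E.D sys i).hom_ext (fun m => ?_) (fun a => ?_)
  · rw [MonoidHom.comp_apply, MonoidHom.comp_apply, ψ_jH, lam_jH]
    refine Wr.ext rfl (funext fun y => ?_)
    exact E.lam_jH sys i _
  · rw [MonoidHom.comp_apply, MonoidHom.comp_apply, ψ_jA, lam_jA]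
    refine Wr.ext rfl (funext fun y => ?_)
    rw [Wr.map_s]
    by_cases h : y = y0
    · simp only [ψA, MonoidHom.coe_mk, OneHom.coe_mk, h, dif_pos]
      rw [lam_jA]
      exact (E.secB0 (sys.g i a).2).symm
    · simp only [ψA, MonoidHom.coe_mk, OneHom.coe_mk, h, dif_neg, not_false_iff]
      rw [lam_jH]
      rfl

/-- The structure maps of the amalgams. -/
noncomputable def F (i k : sys.ι) (h : i ≤ k) : (E.D sys i).Am →* (E.D sys k).Am :=
  (E.D sys i).lift (E.D sys k).jH ((E.D sys k).jA.comp (sys.f i k h)) (fun x => by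
    show (E.D sys k).jA (sys.f i k h (sys.s i x)) = _
    rw [sys.f_s]
    exact (E.D sys k).jA_s x)

theorem F_jH (i k : sys.ι) (h : i ≤ k) (m : E.N) :
    E.F sys i k h ((E.D sys i).jH m) = (E.D sys k).jH m := (E.D sys i).lift_jH _ _ _ m

theorem F_jA (i k : sys.ι) (h : i ≤ k) (a : sys.A i) :
    E.F sys i k h ((E.D sys i).jA a) = (E.D sys k).jA (sys.f i k h a) :=
  (E.D sys i).lift_jA _ _ _ a

theorem lam_F (i k : sys.ι) (h : i ≤ k) : (E.lam sys k).comp (E.F sys i k h) = E.lam sys i := by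
  refine (E.D sys i).hom_ext (fun m => ?_) (fun a => ?_)
  · rw [MonoidHom.comp_apply, F_jH, lam_jH, lam_jH]
  · rw [MonoidHom.comp_apply, F_jA, lam_jA, lam_jA, sys.g_f]

theorem F_compat (i k : sys.ι) (h : i ≤ k) : (E.R sys i).Compat (E.R sys k) (E.F sys i k h) := by
  refine (E.D sys i).hom_ext (fun m => ?_) (fun a => ?_)
  · rw [MonoidHom.comp_apply, MonoidHom.comp_apply, ψ_jH, F_jH, ψ_jH]
    refine Wr.ext rfl (funext fun y => ?_)
    exact E.F_jH sys i k h _
  · rw [MonoidHom.comp_apply, MonoidHom.comp_apply, ψ_jA, F_jA, ψ_jA]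
    refine Wr.ext ?_ (funext fun y => ?_)
    · show S.perm _ = S.perm _
      rw [sys.g_f]
    · rw [Wr.map_s]
      by_cases hy : y = y0
      · simp only [ψA, MonoidHom.coe_mk, OneHom.coe_mk, hy, dif_pos]
        rw [F_jA]
      · simp only [ψA, MonoidHom.coe_mk, OneHom.coe_mk, hy, dif_neg, not_false_iff]
        rw [F_jH]
        congr 1
        apply Subtype.ext
        simp only [sys.g_f]

theorem F_id (i : sys.ι) (x : (E.D sys i).Am) : E.F sys i i le_rfl x = x := by
  have : E.F sys i i le_rfl = MonoidHom.id _ := by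
    refine (E.D sys i).hom_ext (fun m => ?_) (fun a => ?_)
    · rw [F_jH]; rfl
    · rw [F_jA, sys.f_id]; rfl
  rw [this]; rfl

theorem F_comp (i k l : sys.ι) (hik : i ≤ k) (hkl : k ≤ l) (x : (E.D sys i).Am) :
    E.F sys k l hkl (E.F sys i k hik x) = E.F sys i l (hik.trans hkl) x := by
  have : (E.F sys k l hkl).comp (E.F sys i k hik) = E.F sys i l (hik.trans hkl) := by
    refine (E.D sys i).hom_ext (fun m => ?_) (fun a => ?_)
    · rw [MonoidHom.comp_apply, F_jH, F_jH, F_jH]
    · rw [MonoidHom.comp_apply, F_jA, F_jA, F_jA, sys.f_comp]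
  exact DFunLike.congr_fun this x

end DirData

end Pool.Agent.FJ
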