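import Pool.Agent.Lib.MP_98022b_h71.Step

/-!
# The induction step: the directed system of the next level
-/

set_option autoImplicit false

namespace Pool.Agent.FJ

variable {P : ∀ (G : Type) [Group G], Prop}

namespace DirData

variable {Y W : Type} [Group W] {S : TreeSS Y W} {y0 : Y} (E : DirData S y0)
variable (sys : RetSys P (Subgroup.inclusion E.hCB))

theorem mem_C {x : W} : x ∈ E.C ↔ x ∈ E.N ∧ x ∈ E.B := by
  have h := E.hC
  constructor
  · intro hx
    have : x ∈ E.N ⊓ E.B := h ▸ hx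
    exact this
  · intro hx
    have : x ∈ E.N ⊓ E.B := hx
    exact h ▸ this

theorem lam_mem (i : sys.ι) (x : (E.D sys i).Am) : E.lam sys i x ∈ E.N ⊔ E.B := by
  have h : (⊤ : Subgroup (E.D sys i).Am) ≤ (E.N ⊔ E.B).comap (E.lam sys i) := by
    rw [← (E.D sys i).closure_eq_top, sup_le_iff]
    constructor
    · rintro _ ⟨m, rfl⟩
      rw [Subgroup.mem_comap, lam_jH]
      exact Subgroup.mem_sup_left m.2
    · rintro _ ⟨a, rfl⟩
      rw [Subgroup.mem_comap, lam_jA]
      exact Subgroup.mem_sup_right (sys.g i a).2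
  exact h (Subgroup.mem_top x)

theorem exists_lam {x : W} (hx : x ∈ E.N ⊔ E.B) : ∃ (i : sys.ι) (γ : (E.D sys i).Am),
    E.lam sys i γ = x := by
  rw [Subgroup.sup_eq_closure] at hx
  induction hx using Subgroup.closure_induction with
  | mem x hx =>
    rcases hx with hx | hx
    · obtain ⟨i⟩ := sys.ne
      exact ⟨i, (E.D sys i).jH ⟨x, hx⟩, E.lam_jH sys i _⟩
    · obtain ⟨i, a, ha⟩ := sys.surj ⟨x, hx⟩
      exact ⟨i, (E.D sys i).jA a, by rw [lam_jA, ha]⟩
  | one =>
    obtain ⟨i⟩ := sys.ne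
    exact ⟨i, 1, map_one _⟩
  | mul x y _ _ hx hy =>
    obtain ⟨i, γ, rfl⟩ := hx
    obtain ⟨k, δ, rfl⟩ := hy
    obtain ⟨l, hl1, hl2⟩ := exists_ge_ge i k
    refine ⟨l, E.F sys i l hl1 γ * E.F sys k l hl2 δ, ?_⟩
    rw [map_mul, ← MonoidHom.comp_apply, ← MonoidHom.comp_apply, lam_F, lam_F]
  | inv x _ hx =>
    obtain ⟨i, γ, rfl⟩ := hx
    exact ⟨i, γ⁻¹, map_inv _ _⟩

/-- Elements acting trivially have trivial deep sections, after passing to a larger index. -/
theorem exists_kill (hcontr : E.Contracts) [Finite Y] (i : sys.ι) (γ : (E.D sys i).Am)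
    (hγ : E.lam sys i γ = 1) : ∃ (n : ℕ) (k : sys.ι) (hik : i ≤ k), ∀ v : List Y, v.length = n →
      E.F sys i k hik ((E.R sys i).secL γ v) = 1 := by
  obtain ⟨n, hn⟩ := hcontr (sys.A i) (E.D sys i).Am (sys.g i) (sys.s i) (E.D sys i).jH
    (E.D sys i).jA (E.lam sys i) (E.R sys i) (E.g_s_coe sys i) (E.D sys i).jA_s
    (E.lam_jH sys i) (E.lam_jA sys i) (E.compat sys i) (fun m y _ => E.sec_jH sys i m y)
    (fun a => E.sec_jA0 sys i a) (fun a y hy _ => E.sec_jA sys i a hy) (E.D sys i).closure_eq_top γ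
  have key : ∀ v : Words Y n, ∃ (k : sys.ι) (hik : i ≤ k),
      E.F sys i k hik ((E.R sys i).secL γ v.1) = 1 := by
    intro v
    obtain ⟨m, a, m', h⟩ := hn v.1 v.2
    have h1 : E.lam sys i ((E.R sys i).secL γ v.1) = 1 := by
      rw [← (E.compat sys i).secL, hγ]
      exact S.secL_one v.1
    rw [h, map_mul, map_mul, lam_jH, lam_jH, lam_jA] at h1
    have h2 : ((sys.g i a : E.B) : W) = (m : W)⁻¹ * (m' : W)⁻¹ := by
      have := congrArg (fun z => (m : W)⁻¹ * z * (m' : W)⁻¹) h1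
      simpa [mul_assoc] using this
    have h3 : ((sys.g i a : E.B) : W) ∈ E.C := by
      refine E.mem_C.2 ⟨?_, (sys.g i a).2⟩
      rw [h2]
      exact mul_mem (inv_mem m.2) (inv_mem m'.2)
    have h4 : sys.g i a = sys.g i (sys.s i ⟨_, h3⟩) := by
      rw [sys.g_s]; rfl
    obtain ⟨k, hik, hk⟩ := sys.eq_of_g h4
    refine ⟨k, hik, ?_⟩
    rw [h, map_mul, map_mul, F_jH, F_jH, F_jA, hk, sys.f_s]
    have h5 : (E.D sys k).jA (sys.s k ⟨_, h3⟩) =
        (E.D sys k).jH (Subgroup.inclusion (hCN E) ⟨_, h3⟩) := (E.D sys k).jA_s _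
    rw [h5, ← map_mul, ← map_mul, ← map_one (E.D sys k).jH]
    congr 1
    apply Subtype.ext
    exact h1
  choose k hik hk using key
  obtain ⟨M, hM⟩ := Finite.exists_le k
  obtain ⟨M', hM'1, hM'2⟩ := exists_ge_ge M i
  refine ⟨n, M', hM'2, fun v hv => ?_⟩
  have := hk ⟨v, hv⟩
  rw [← E.F_comp sys i (k ⟨v, hv⟩) M' (hik _) ((hM _).trans hM'1), this, map_one]

/-- The section of `N` in the level group. -/
noncomputable def sN (p : ℕ × sys.ι) : E.N →* Lev S (E.lam sys p.2) p.1 where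
  toFun m := ⟨m, fun v => (E.D sys p.2).jH ⟨S.secL m v.1, E.secLN m.2 v.1⟩,
    fun v => E.lam_jH sys p.2 _⟩
  map_one' := by
    refine Lev.ext rfl (funext fun v => ?_)
    rw [Lev.one_a, ← map_one (E.D sys p.2).jH]
    exact congrArg (E.D sys p.2).jH (Subtype.ext (S.secL_one v.1))
  map_mul' a b := by
    refine Lev.ext rfl (funext fun v => ?_)
    rw [Lev.mul_a, ← map_mul]
    exact congrArg (E.D sys p.2).jH (Subtype.ext (S.secL_mul a b v.1))

open Classical in
/-- The lifts of the sections of the retracted element. -/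
noncomputable def rb (p : ℕ × sys.ι) (x : Lev S (E.lam sys p.2) p.1) (v : List Y) : W :=
  if h : v.length = p.1 then ((E.D sys p.2).retr (x.a ⟨v, h⟩) : E.N) else 1

theorem rb_of (p : ℕ × sys.ι) (x : Lev S (E.lam sys p.2) p.1) {v : List Y}
    (hv : v.length = p.1) : E.rb sys p x v = ((E.D sys p.2).retr (x.a ⟨v, hv⟩) : E.N) := by
  simp [rb, hv]

/-- The retraction of the level group onto `N`. -/
noncomputable def rN [Nonempty Y] (p : ℕ × sys.ι) : Lev S (E.lam sys p.2) p.1 →* E.N where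
  toFun x := ⟨S.build p.1 x.g (E.rb sys p x), E.mem_of_secL p.1 fun v hv => by
    rw [S.secL_build _ _ _ v hv, rb_of E sys p x hv]
    exact ((E.D sys p.2).retr (x.a ⟨v, hv⟩)).2⟩
  map_one' := by
    apply Subtype.ext
    refine S.ext_level p.1 (fun v hv => ?_) (fun v hv => ?_)
    · exact S.act_build _ _ _ v hv
    · show S.secL (S.build _ _ _) v = S.secL 1 v
      rw [S.secL_build _ _ _ v hv, rb_of E sys p _ hv, S.secL_one]
      simp
  map_mul' x y := by
    apply Subtype.ext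
    refine S.ext_level p.1 (fun v hv => ?_) (fun v hv => ?_)
    · show S.act (S.build _ _ _) v = S.act (S.build _ _ _ * S.build _ _ _) v
      rw [S.act_mul, S.act_build _ _ _ v hv, S.act_build _ _ _ v hv,
        S.act_build _ _ _ _ (by simp [hv]), ← S.act_mul]
      rfl
    · show S.secL (S.build _ _ _) v = S.secL (S.build _ _ _ * S.build _ _ _) v
      have hv' : (S.act y.g v).length = p.1 := by simp [hv]
      rw [S.secL_mul, S.secL_build _ _ _ v hv, S.secL_build _ _ _ v hv,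
        S.act_build _ _ _ v hv, S.secL_build _ _ _ _ hv', rb_of E sys p _ hv,
        rb_of E sys p _ hv, rb_of E sys p _ hv']
      rw [Lev.mul_a, map_mul]
      rfl

/-- The system of the next level. -/
noncomputable def next (hP : IsFJClass P) (hPN : P E.N) (hcontr : E.Contracts) [Finite Y]
    [Nonempty Y] {Nn : Subgroup W}
    (hNn : ∀ g, g ∈ Nn ↔ ∃ n : ℕ, ∀ v : List Y, v.length = n → S.secL g v ∈ E.N ⊔ E.B)
    (hle : E.N ≤ Nn) : RetSys P (Subgroup.inclusion hle) where
  ι := ℕ × sys.ι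
  pre := inferInstance
  dir := ⟨fun a b => by
    obtain ⟨i, h1, h2⟩ := exists_ge_ge a.2 b.2
    exact ⟨(max a.1 b.1, i), ⟨le_max_left _ _, h1⟩, ⟨le_max_right _ _, h2⟩⟩⟩
  ne := inferInstance
  A p := Lev S (E.lam sys p.2) p.1
  f p q h := Lev.map (E.R sys p.2) (E.compat sys p.2) (E.F sys p.2 q.2 h.2)
    (E.lam_F sys p.2 q.2 h.2) h.1
  g p := Lev.toW.codRestrict Nn fun x => (hNn _).2 ⟨p.1, fun v hv => by
    have := x.h ⟨v, hv⟩
    show S.secL x.g v ∈ _
    rw [← this]
    exact E.lam_mem sys p.2 _⟩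
  s p := E.sN sys p
  r p := E.rN sys p
  f_id p x := by
    refine Lev.ext rfl (funext fun v => ?_)
    rw [Lev.map_a, F_id]
    have h1 : (⟨v.1.take p.1, by simp [v.2]⟩ : Words Y p.1) = v :=
      Subtype.ext (List.take_of_length_le (le_of_eq v.2))
    have h2 : v.1.drop p.1 = [] := List.drop_of_length_le (le_of_eq v.2)
    rw [h1, h2]
    rfl
  f_comp p q l hpq hql x := by
    refine Lev.ext rfl (funext fun v => ?_)
    rw [Lev.map_a, Lev.map_a, Lev.map_a, (E.F_compat sys p.2 q.2 hpq.2).secL, F_comp,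
      ← SS.secL_append]
    congr 2
    · congr 1
      apply Subtype.ext
      show (v.1.take q.1).take p.1 = v.1.take p.1
      rw [List.take_take, min_eq_left hpq.1]
    · show (v.1.take q.1).drop p.1 ++ v.1.drop q.1 = v.1.drop p.1
      have h1 := List.take_append_drop q.1 v.1
      conv_rhs => rw [← h1]
      rw [List.drop_append_of_le_length (by simp [v.2, hpq.1, (hpq.trans hql).1])]
  g_f p q h x := rfl
  surj y := by
    obtain ⟨n, hn⟩ := (hNn _).1 y.2
    choose i γ hγ using fun v : Words Y n => E.exists_lam sys (hn v.1 v.2)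
    obtain ⟨M, hM⟩ := Finite.exists_le i
    refine ⟨(n, M), ⟨y.1, fun v => E.F sys (i v) M (hM v) (γ v), fun v => ?_⟩, rfl⟩
    rw [← MonoidHom.comp_apply, lam_F, hγ]
  ker p x hx := by
    have hx1 : x.g = 1 := congrArg Subtype.val hx
    have hx2 : ∀ v : Words Y p.1, E.lam sys p.2 (x.a v) = 1 := fun v => by
      rw [x.h, hx1, S.secL_one]
    choose n k hk h using fun v => E.exists_kill sys hcontr p.2 (x.a v) (hx2 v)
    obtain ⟨M, hM⟩ := Finite.exists_le k
    obtain ⟨M', hM'1, hM'2⟩ := exists_ge_ge M p.2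
    obtain ⟨m, hm⟩ := Finite.exists_le n
    refine ⟨(p.1 + m, M'), ⟨by simp, hM'2⟩, ?_⟩
    refine Lev.ext hx1 (funext fun v => ?_)
    rw [Lev.map_a, Lev.one_a]
    set u : Words Y p.1 := ⟨v.1.take p.1, by simp [v.2]⟩ with hu
    set w := v.1.drop p.1 with hw
    have hwlen : w.length = m := by simp [hw, v.2]
    have h1 : w = w.take (n u) ++ w.drop (n u) := (List.take_append_drop _ _).symm
    have h2 : (w.take (n u)).length = n u := by simp [hwlen, hm u]
    rw [h1, SS.secL_append, ← (E.F_compat sys p.2 M' hM'2).secL,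
      ← E.F_comp sys p.2 (k u) M' (hk u) ((hM u).trans hM'1), h u _ h2, map_one, SS.secL_one]
  memP p := Lev.mem hP ((E.D sys p.2).mem hP hPN (sys.memP p.2))
  f_s p q h m := by
    refine Lev.ext rfl (funext fun v => ?_)
    rw [Lev.map_a]
    show E.F sys p.2 q.2 h.2 ((E.R sys p.2).secL ((E.D sys p.2).jH _) _) = (E.D sys q.2).jH _
    rw [secL_jH, F_jH]
    congr 1
    apply Subtype.ext
    show S.secL (S.secL m (v.1.take p.1)) (v.1.drop p.1) = S.secL m v.1
    rw [← S.secL_append, List.take_append_drop]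
  g_s p m := rfl
  r_s p m := by
    apply Subtype.ext
    refine S.ext_level p.1 (fun v hv => ?_) (fun v hv => ?_)
    · exact S.act_build _ _ _ v hv
    · show S.secL (S.build _ _ _) v = _
      rw [S.secL_build _ _ _ v hv, rb_of E sys p _ hv]
      show (((E.D sys p.2).retr ((E.D sys p.2).jH _) : E.N) : W) = _
      rw [(E.D sys p.2).retr_jH]

end DirData

end Pool.Agent.FJ
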