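import Pool.Agent.Lib.MP_98022b_h71.Twist

/-!
# Twisted free permutational products `(*_Ω N) ⋊ H`
-/

set_option autoImplicit false

namespace Pool.Agent.FJ

open Monoid SemidirectProduct

variable {P : ∀ (G : Type) [Group G], Prop}

/-- The element `n` of the factor of index `ω` of the free product of copies of `N`. -/
def gen {Ω N : Type} [Group N] (ω : Ω) : N →* CoprodI (fun _ : Ω => N) :=
  CoprodI.of (M := fun _ : Ω => N) (i := ω)

theorem gen_hom_ext {Ω N G : Type} [Group N] [Monoid G] {f g : CoprodI (fun _ : Ω => N) →* G}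
    (h : ∀ ω n, f (gen ω n) = g (gen ω n)) : f = g :=
  CoprodI.ext_hom _ _ fun ω => MonoidHom.ext fun n => h ω n

/-- Lift of a family of homomorphisms to the free product of copies of `N`. -/
def genLift {Ω N G : Type} [Group N] [Group G] (β : Ω → (N →* G)) :
    CoprodI (fun _ : Ω => N) →* G := CoprodI.lift β

@[simp] theorem genLift_gen {Ω N G : Type} [Group N] [Group G] (β : Ω → (N →* G)) (ω : Ω) (n : N) :
    genLift β (gen ω n) = β ω n := CoprodI.lift_of β n

/-- Twisted equivariant data: the group `H` acts on the set `Ω`, and compatibly on the family of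
groups with all members equal to `N`. -/
structure Twist (H Ω N : Type) [Group H] [MulAction H Ω] [Group N] where
  /-- the isomorphism from the group at `ω` to the group at `h • ω` -/
  κ : H → Ω → MulAut N
  map_mul : ∀ h h' ω, κ (h * h') ω = κ h (h' • ω) * κ h' ω

namespace Twist

/-- The untwisted data. -/
def triv (H Ω N : Type) [Group H] [MulAction H Ω] [Group N] : Twist H Ω N where
  κ := fun _ _ => 1
  map_mul := fun _ _ _ => (one_mul 1).symm

variable {H Ω N : Type} [Group H] [MulAction H Ω] [Group N] (T : Twist H Ω N)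

theorem map_one (ω : Ω) : T.κ 1 ω = 1 := by
  have h := T.map_mul 1 1 ω
  rw [one_mul, one_smul] at h
  exact (mul_eq_left.1 h.symm)

/-- The action of one element. -/
def actFun (h : H) : CoprodI (fun _ : Ω => N) →* CoprodI (fun _ : Ω => N) :=
  genLift fun ω => (gen (h • ω)).comp (T.κ h ω).toMonoidHom

theorem actFun_gen (h : H) (ω : Ω) (n : N) : T.actFun h (gen ω n) = gen (h • ω) (T.κ h ω n) := by
  simp [actFun]

theorem actFun_one : T.actFun 1 = MonoidHom.id _ := by
  refine gen_hom_ext fun ω n => ?_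
  rw [actFun_gen, one_smul, map_one]; rfl

theorem actFun_mul (h h' : H) : T.actFun (h * h') = (T.actFun h).comp (T.actFun h') := by
  refine gen_hom_ext fun ω n => ?_
  rw [MonoidHom.comp_apply, actFun_gen, actFun_gen, actFun_gen, mul_smul, map_mul]; rfl

/-- The action of `H` on the free product. -/
def act : H →* MulAut (CoprodI (fun _ : Ω => N)) where
  toFun h := MonoidHom.toMulEquiv (T.actFun h) (T.actFun h⁻¹)
    (by rw [← actFun_mul, inv_mul_cancel, actFun_one])
    (by rw [← actFun_mul, mul_inv_cancel, actFun_one])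
  map_one' := by
    ext x
    exact DFunLike.congr_fun T.actFun_one x
  map_mul' h h' := by
    ext x
    exact DFunLike.congr_fun (T.actFun_mul h h') x

@[simp] theorem act_gen (h : H) (ω : Ω) (n : N) :
    T.act h (gen ω n) = gen (h • ω) (T.κ h ω n) := T.actFun_gen h ω n

/-- The twisted free permutational product. -/
abbrev Prod : Type := CoprodI (fun _ : Ω => N) ⋊[T.act] H

/-- Homomorphisms out of the twisted product. -/
def lift {G : Type} [Group G] (α : H →* G) (β : Ω → (N →* G))
    (hβ : ∀ h ω n, β (h • ω) (T.κ h ω n) = α h * β ω n * (α h)⁻¹) : T.Prod →* G :=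
  SemidirectProduct.lift (genLift β) α (by
    intro h
    refine gen_hom_ext fun ω n => ?_
    simp [hβ])

@[simp] theorem lift_inr {G : Type} [Group G] (α : H →* G) (β : Ω → (N →* G))
    (hβ : ∀ h ω n, β (h • ω) (T.κ h ω n) = α h * β ω n * (α h)⁻¹) (h : H) :
    T.lift α β hβ (inr h) = α h := by simp [lift]

@[simp] theorem lift_gen {G : Type} [Group G] (α : H →* G) (β : Ω → (N →* G))
    (hβ : ∀ h ω n, β (h • ω) (T.κ h ω n) = α h * β ω n * (α h)⁻¹) (ω : Ω) (n : N) :
    T.lift α β hβ (inl (gen ω n)) = β ω n := by simp [lift]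

theorem hom_ext {G : Type} [Group G] {f g : T.Prod →* G} (h1 : ∀ h, f (inr h) = g (inr h))
    (h2 : ∀ ω n, f (inl (gen ω n)) = g (inl (gen ω n))) : f = g :=
  SemidirectProduct.hom_ext (gen_hom_ext fun ω n => h2 ω n) (MonoidHom.ext h1)

/-- The relation in the twisted product. -/
theorem conj_gen (h : H) (ω : Ω) (n : N) :
    (inl (gen (h • ω) (T.κ h ω n)) : T.Prod) = inr h * inl (gen ω n) * (inr h)⁻¹ := by
  rw [← act_gen, inl_aut, _root_.map_inv]

/-- The action of the stabilizer of `ω` on the group at `ω`. -/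
def stab (ω : Ω) : MulAction.stabilizer H ω →* MulAut N where
  toFun h := T.κ h ω
  map_one' := T.map_one ω
  map_mul' h h' := by
    have : (h' : H) • ω = ω := h'.2
    simp [T.map_mul, this]

/-- Restriction of the data along a homomorphism `f : H' → H` and an equivariant map of sets. -/
def comap {H' Ω' : Type} [Group H'] [MulAction H' Ω'] (f : H' →* H) (g : Ω' → Ω)
    (hg : ∀ h ω, g (h • ω) = f h • g ω) : Twist H' Ω' N where
  κ h ω := T.κ (f h) (g ω)
  map_mul h h' ω := by rw [_root_.map_mul, T.map_mul, hg]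

/-- Functoriality. -/
def map {H' Ω' : Type} [Group H'] [MulAction H' Ω'] (f : H' →* H) (g : Ω' → Ω)
    (hg : ∀ h ω, g (h • ω) = f h • g ω) : (T.comap f g hg).Prod →* T.Prod :=
  (T.comap f g hg).lift (inr.comp f) (fun ω => inl.comp (gen (g ω))) (by
    intro h ω n
    have := T.conj_gen (f h) (g ω) n
    rw [← hg] at this
    exact this)

@[simp] theorem map_inr {H' Ω' : Type} [Group H'] [MulAction H' Ω'] (f : H' →* H) (g : Ω' → Ω)
    (hg : ∀ h ω, g (h • ω) = f h • g ω) (h : H') : T.map f g hg (inr h) = inr (f h) :=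
  (T.comap f g hg).lift_inr _ _ _ h

@[simp] theorem map_gen {H' Ω' : Type} [Group H'] [MulAction H' Ω'] (f : H' →* H) (g : Ω' → Ω)
    (hg : ∀ h ω, g (h • ω) = f h • g ω) (ω : Ω') (n : N) :
    T.map f g hg (inl (gen ω n)) = inl (gen (g ω) n) :=
  (T.comap f g hg).lift_gen _ _ _ ω n

end Twist

end Pool.Agent.FJ
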