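import Pool.Agent.Lib.MP_98022b_h71.Defs

/-!
# Semidirect products and twisted free permutational products
-/

set_option autoImplicit false

namespace Pool.Agent.FJ

open Monoid SemidirectProduct

variable {P : ∀ (G : Type) [Group G], Prop}

/-! ### Extension lemma for semidirect products -/

theorem IsFJClass.semidirect_zpowers (hP : IsFJClass P) {N H : Type} [Group N] [Group H]
    (φ : H →* MulAut N) (hH : P H)
    (hq : ∀ q : H, P (N ⋊[φ.comp (Subgroup.zpowers q).subtype] (Subgroup.zpowers q))) :
    P (N ⋊[φ] H) := by
  refine hP.extension (rightHom : N ⋊[φ] H →* H) hH fun q => ?_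
  refine hP.of_injective
    (H := N ⋊[φ.comp (Subgroup.zpowers q).subtype] (Subgroup.zpowers q))
    { toFun := fun x => ⟨x.1.left, ⟨x.1.right, x.2⟩⟩
      map_one' := rfl
      map_mul' := fun x y => rfl } ?_ (hq q)
  intro x y hxy
  have h1 := congrArg SemidirectProduct.left hxy
  have h2 := congrArg (fun z => (z.right : H)) hxy
  apply Subtype.ext
  exact SemidirectProduct.ext h1 h2

theorem IsFJClass.semidirect_finite (hP : IsFJClass P) {N H : Type} [Group N] [Group H] [Finite H]
    (φ : H →* MulAut N) (hN : P N) : P (N ⋊[φ] H) := by
  refine hP.of_finite_range (rightHom : N ⋊[φ] H →* H) ?_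
  refine hP.of_injective (H := N)
    { toFun := fun x => x.1.left
      map_one' := rfl
      map_mul' := fun x y => ?_ } ?_ hN
  · have hx : x.1.right = 1 := x.2
    simp [hx]
  · intro x y hxy
    apply Subtype.ext
    refine SemidirectProduct.ext hxy ?_
    exact (x.2 : x.1.right = 1).trans (y.2 : y.1.right = 1).symm

/-- Extension lemma for semidirect products, reduced to actions of the infinite cyclic group. -/
theorem IsFJClass.semidirect_int (hP : IsFJClass P) {N H : Type} [Group N] [Group H]
    (φ : H →* MulAut N) (hH : P H) (hN : P N)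
    (hq : ∀ q : H, ¬ IsOfFinOrder q → P (N ⋊[φ.comp (zpowersHom H q)] (Multiplicative ℤ))) :
    P (N ⋊[φ] H) := by
  refine hP.semidirect_zpowers φ hH fun q => ?_
  by_cases hfin : IsOfFinOrder q
  · have : Finite (Subgroup.zpowers q) := finite_zpowers.2 hfin
    exact hP.semidirect_finite _ hN
  · have hinj : Function.Injective (zpowersHom H q) := by
      intro a b hab
      have := injective_zpow_iff_not_isOfFinOrder.2 hfin
      apply Multiplicative.toAdd.injective
      exact this hab
    let e : Multiplicative ℤ ≃* Subgroup.zpowers q :=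
      MulEquiv.ofBijective ((zpowersHom H q).codRestrict (Subgroup.zpowers q)
        (fun a => ⟨Multiplicative.toAdd a, rfl⟩)) ⟨fun a b hab => hinj (congrArg Subtype.val hab),
          fun ⟨y, k, hk⟩ => ⟨Multiplicative.ofAdd k, Subtype.ext hk⟩⟩
    have he : ∀ y : Subgroup.zpowers q, zpowersHom H q (e.symm y) = (y : H) := fun y => by
      have : e (e.symm y) = y := e.apply_symm_apply y
      exact congrArg Subtype.val this
    refine hP.of_injective (H := N ⋊[φ.comp (zpowersHom H q)] (Multiplicative ℤ))
      (SemidirectProduct.map (MonoidHom.id N) e.symm.toMonoidHom (fun g => ?_)) ?_ (hq q hfin)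
    · ext n
      simp only [MonoidHom.comp_apply, MulEquiv.coe_toMonoidHom, MonoidHom.id_apply,
        Subgroup.coe_subtype]
      have h := he g
      rw [show zpowersHom H q (e.symm g) = (g : H) from h]
    · intro x y hxy
      have h1 := congrArg SemidirectProduct.left hxy
      have h2 := congrArg SemidirectProduct.right hxy
      refine SemidirectProduct.ext h1 (e.symm.injective h2)

end Pool.Agent.FJ
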