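import Pool.Agent.Lib.MP_98022b_h71.Defs

/-!
# Permutational wreath products `G ≀ Sym(Y)`
-/

set_option autoImplicit false

namespace Pool.Agent.FJ

variable {P : ∀ (G : Type) [Group G], Prop}

/-- The wreath product of `G` with the symmetric group of `Y`. -/
@[ext]
structure Wr (G Y : Type) where
  /-- the permutation -/
  perm : Equiv.Perm Y
  /-- the coordinates -/
  s : Y → G

namespace Wr

variable {G G' G'' Y : Type} [Group G] [Group G'] [Group G'']

instance : Mul (Wr G Y) := ⟨fun a b => ⟨a.perm * b.perm, fun y => a.s (b.perm y) * b.s y⟩⟩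
instance : One (Wr G Y) := ⟨⟨1, fun _ => 1⟩⟩
instance : Inv (Wr G Y) := ⟨fun a => ⟨a.perm⁻¹, fun y => (a.s (a.perm⁻¹ y))⁻¹⟩⟩

@[simp] theorem mul_perm (a b : Wr G Y) : (a * b).perm = a.perm * b.perm := rfl
@[simp] theorem mul_s (a b : Wr G Y) (y : Y) : (a * b).s y = a.s (b.perm y) * b.s y := rfl
@[simp] theorem one_perm : (1 : Wr G Y).perm = 1 := rfl
@[simp] theorem one_s (y : Y) : (1 : Wr G Y).s y = 1 := rfl
@[simp] theorem inv_perm (a : Wr G Y) : (a⁻¹).perm = a.perm⁻¹ := rfl
@[simp] theorem inv_s (a : Wr G Y) (y : Y) : (a⁻¹).s y = (a.s (a.perm⁻¹ y))⁻¹ := rfl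

instance : Group (Wr G Y) where
  mul_assoc a b c := by
    ext y
    · rfl
    · simp [mul_assoc]
  one_mul a := by ext y <;> simp
  mul_one a := by ext y <;> simp
  inv_mul_cancel a := by
    ext y
    · simp
    · simp

/-- The permutation as a homomorphism. -/
def permHom : Wr G Y →* Equiv.Perm Y where
  toFun := Wr.perm
  map_one' := rfl
  map_mul' _ _ := rfl

/-- Functoriality. -/
def map (f : G →* G') : Wr G Y →* Wr G' Y where
  toFun a := ⟨a.perm, fun y => f (a.s y)⟩
  map_one' := by ext y <;> simp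
  map_mul' a b := by ext y <;> simp

@[simp] theorem map_perm (f : G →* G') (a : Wr G Y) : (map f a).perm = a.perm := rfl
@[simp] theorem map_s (f : G →* G') (a : Wr G Y) (y : Y) : (map f a).s y = f (a.s y) := rfl

theorem mem (hP : IsFJClass P) [Finite Y] (hG : P G) : P (Wr G Y) := by
  refine hP.of_finite_range (permHom : Wr G Y →* Equiv.Perm Y) ?_
  refine hP.of_injective (H := Y → G)
    { toFun := fun x => x.1.s
      map_one' := rfl
      map_mul' := fun a b => ?_ } ?_ (hP.pi hG)
  · have hb : b.1.perm = 1 := b.2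
    funext y
    simp [hb]
  · intro a b hab
    apply Subtype.ext
    exact Wr.ext ((a.2 : a.1.perm = 1).trans (b.2 : b.1.perm = 1).symm) hab

end Wr

end Pool.Agent.FJ
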