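import Pool.Agent.Lib.MP_98022b_h71.Loc

/-!
# Twisted free permutational products over the infinite cyclic group
-/

set_option autoImplicit false

namespace Pool.Agent.FJ

open Monoid SemidirectProduct

variable {P : ∀ (G : Type) [Group G], Prop}

/-- The base case: trivial action on a finite set, twisting in `K`. -/
def BaseHyp (P : ∀ (G : Type) [Group G], Prop) (N : Type) [Group N] (K : Set (MulAut N)) : Prop :=
  ∀ (Z J : Type) [Group Z] [MulAction Z J] [Finite J] (T : Twist Z J N), P Z → P N →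
    (∀ z j, T.κ z j ∈ K) →
    (∀ (z : Z) (j : J), z • j = j) →
    (∀ j, P (N ⋊[T.stab j] (MulAction.stabilizer Z j))) → P T.Prod

section

variable {N : Type} [Group N] {K : Set (MulAut N)}

/-- Action with finite set. -/
theorem IsFJClass.twist_finite (hP : IsFJClass P) (hbase : BaseHyp P N K) (hN : P N)
    {Z Ω : Type} [Group Z] [MulAction Z Ω] [Finite Ω] (hZ : P Z) (T : Twist Z Ω N)
    (hK : ∀ z j, T.κ z j ∈ K)
    (hst : ∀ ω, P (N ⋊[T.stab ω] (MulAction.stabilizer Z ω))) : P T.Prod := by
  classical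
  let f : T.Prod →* Equiv.Perm Ω := (MulAction.toPermHom Z Ω).comp rightHom
  refine hP.of_finite_range f ?_
  let Z0 : Subgroup Z := (MulAction.toPermHom Z Ω).ker
  let T0 : Twist Z0 Ω N := T.comap Z0.subtype id (fun _ _ => rfl)
  have hact : ∀ (z : Z0), T0.act z = T.act (z : Z) := fun z => rfl
  refine hP.of_injective (H := T0.Prod)
    { toFun := fun x => ⟨x.1.left, ⟨x.1.right, x.2⟩⟩
      map_one' := rfl
      map_mul' := fun x y => rfl } ?_ ?_
  · intro x y hxy
    have h1 := congrArg SemidirectProduct.left hxy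
    have h2 := congrArg (fun z => (z.right : Z)) hxy
    exact Subtype.ext (SemidirectProduct.ext h1 h2)
  · refine hbase Z0 Ω T0 (hP.subgroup _ hZ) hN (fun z j => hK z j) ?_ ?_
    · intro z j
      have h : MulAction.toPermHom Z Ω (z : Z) = 1 := z.2
      exact DFunLike.congr_fun h j
    · intro j
      refine hP.of_injective (H := N ⋊[T.stab j] (MulAction.stabilizer Z j))
        { toFun := fun x => ⟨x.left, ⟨(x.right : Z0), x.right.2⟩⟩
          map_one' := rfl
          map_mul' := fun x y => rfl } ?_ (hst j)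
      intro x y hxy
      have h1 := congrArg SemidirectProduct.left hxy
      have h2 := congrArg (fun z => (z.right : Z)) hxy
      exact SemidirectProduct.ext h1 (Subtype.ext (Subtype.ext h2))

/-- The points with non-trivial stabilizer in the infinite cyclic group. -/
def finPart (Ω : Type) [MulAction (Multiplicative ℤ) Ω] : SubMulAction (Multiplicative ℤ) Ω where
  carrier := {ω | ∃ k : Multiplicative ℤ, k ≠ 1 ∧ k • ω = ω}
  smul_mem' := by
    rintro c ω ⟨k, hk, hkω⟩
    refine ⟨k, hk, ?_⟩
    rw [smul_smul, mul_comm, ← smul_smul, hkω]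

theorem orbit_finite {Ω : Type} [MulAction (Multiplicative ℤ) Ω] {ω : Ω}
    (hω : ω ∈ finPart Ω) : (MulAction.orbit (Multiplicative ℤ) ω).Finite := by
  obtain ⟨k, hk, hkω⟩ := hω
  have hk' : Multiplicative.toAdd k ≠ 0 := fun h => hk (Multiplicative.toAdd.injective h)
  have hz : ∀ q : ℤ, k ^ q • ω = ω := by
    intro q
    have : k ∈ MulAction.stabilizer (Multiplicative ℤ) ω := hkω
    exact (zpow_mem this q)
  refine Set.Finite.subset (Set.Finite.image (fun i : ℤ => Multiplicative.ofAdd i • ω)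
    (Set.finite_Ico (0 : ℤ) |Multiplicative.toAdd k|)) ?_
  rintro _ ⟨m, rfl⟩
  refine ⟨Multiplicative.toAdd m % Multiplicative.toAdd k,
    ⟨Int.emod_nonneg _ hk', Int.emod_lt_abs _ hk'⟩, ?_⟩
  have hm : m = Multiplicative.ofAdd (Multiplicative.toAdd m % Multiplicative.toAdd k) *
      k ^ (Multiplicative.toAdd m / Multiplicative.toAdd k) := by
    apply Multiplicative.toAdd.injective
    rw [toAdd_mul, toAdd_zpow, toAdd_ofAdd, smul_eq_mul, mul_comm (_ / _)]
    exact (Int.emod_add_mul_ediv _ _).symm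
  show _ = m • ω
  conv_rhs => rw [hm, ← smul_smul, hz]

/-- Finitely many points with non-trivial stabilizers lie in a finite invariant set. -/
theorem exists_finite_sub {Ω : Type} [MulAction (Multiplicative ℤ) Ω]
    (hΩ : ∀ ω : Ω, ω ∈ finPart Ω) (F : Finset Ω) :
    ∃ Ω' : SubMulAction (Multiplicative ℤ) Ω, (∀ ω ∈ F, ω ∈ Ω') ∧ Finite Ω' := by
  refine ⟨⟨⋃ ω ∈ F, MulAction.orbit (Multiplicative ℤ) ω, ?_⟩, ?_, ?_⟩
  · intro c x hx
    simp only [Set.mem_iUnion, exists_prop] at hx ⊢
    obtain ⟨ω, hω, hx⟩ := hx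
    exact ⟨ω, hω, MulAction.mem_orbit_of_mem_orbit c hx⟩
  · intro ω hω
    exact Set.mem_biUnion hω (MulAction.mem_orbit_self ω)
  · exact (Set.Finite.biUnion F.finite_toSet fun ω _ => orbit_finite (hΩ ω)).to_subtype

/-- All points have non-trivial stabilizers. -/
theorem IsFJClass.twist_int_fin (hP : IsFJClass P) (hbase : BaseHyp P N K) (hN : P N)
    {Ω : Type} [MulAction (Multiplicative ℤ) Ω] (T : Twist (Multiplicative ℤ) Ω N)
    (hK : ∀ z j, T.κ z j ∈ K) (hΩ : ∀ ω : Ω, ω ∈ finPart Ω)
    (hst : ∀ ω, P (N ⋊[T.stab ω] (MulAction.stabilizer (Multiplicative ℤ) ω))) : P T.Prod := by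
  refine hP.twist_locally T fun F => ?_
  obtain ⟨Ω', hF, hfin⟩ := exists_finite_sub hΩ F
  refine ⟨Ω', hF, ?_⟩
  refine hP.twist_finite hbase hN hP.int (T.sub Ω') (fun z j => hK z j) fun ω => ?_
  refine hP.of_injective (H := N ⋊[T.stab (ω : Ω)] (MulAction.stabilizer (Multiplicative ℤ) (ω : Ω)))
    { toFun := fun x => ⟨x.left, ⟨(x.right : Multiplicative ℤ), congrArg Subtype.val x.right.2⟩⟩
      map_one' := rfl
      map_mul' := fun x y => rfl } ?_ (hst ω)
  intro x y hxy
  have h1 := congrArg SemidirectProduct.left hxy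
  have h2 := congrArg (fun z => (z.right : Multiplicative ℤ)) hxy
  exact SemidirectProduct.ext h1 (Subtype.ext h2)

/-- The case of the infinite cyclic group. -/
theorem IsFJClass.twist_int (hP : IsFJClass P) (hbase : BaseHyp P N K) (hN : P N)
    {Ω : Type} [MulAction (Multiplicative ℤ) Ω] (T : Twist (Multiplicative ℤ) Ω N)
    (hK : ∀ z j, T.κ z j ∈ K)
    (hst : ∀ ω, P (N ⋊[T.stab ω] (MulAction.stabilizer (Multiplicative ℤ) ω))) : P T.Prod := by
  classical
  let Z := Multiplicative ℤ
  let Ωf := finPart Ω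
  let rep : Ω → Ω := fun ω => (Quotient.mk (MulAction.orbitRel Z Ω) ω).out
  have hrep : ∀ ω, ∃ z : Z, z • rep ω = ω := by
    intro ω
    have h : (MulAction.orbitRel Z Ω).r (rep ω) ω := Quotient.exact (Quotient.out_eq _)
    have h' := (MulAction.orbitRel Z Ω).symm' h
    exact h'
  choose zz hzz using hrep
  have hrep2 : ∀ (h : Z) (ω : Ω), rep (h • ω) = rep ω := by
    intro h ω
    have : Quotient.mk (MulAction.orbitRel Z Ω) (h • ω) =
        Quotient.mk (MulAction.orbitRel Z Ω) ω := Quotient.sound ⟨h, rfl⟩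
    show Quotient.out _ = Quotient.out _
    rw [this]
  have hzz2 : ∀ (h : Z) (ω : Ω), ω ∉ Ωf → zz (h • ω) = h * zz ω := by
    intro h ω hω
    have h1 : zz (h • ω) • rep ω = h • ω := by
      have := hzz (h • ω)
      rwa [hrep2] at this
    by_contra hne
    apply hω
    refine ⟨zz (h • ω) * (h * zz ω)⁻¹, fun h0 => hne (mul_inv_eq_one.1 h0), ?_⟩
    have h2 : (h * zz ω) • rep ω = h • ω := by rw [mul_smul, hzz]
    have h3 : (h * zz ω)⁻¹ • h • ω = rep ω := by rw [← h2, inv_smul_smul]
    have h4 : (zz (h • ω) * (h * zz ω)⁻¹) • (h • ω) = h • ω := by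
      rw [mul_smul, h3, h1]
    have h5 : h • ((zz (h • ω) * (h * zz ω)⁻¹) • ω) = h • ω := by
      rw [smul_smul, mul_comm h, ← smul_smul, h4]
    exact smul_left_cancel h h5
  have hΩf : ∀ (h : Z) (ω : Ω), ω ∉ Ωf → h • ω ∉ Ωf := by
    intro h ω hω h'
    apply hω
    have := Ωf.smul_mem h⁻¹ h'
    rwa [inv_smul_smul] at this
  let G := Coprod (T.sub Ωf).Prod (CoprodI (fun _ : Ω => N))
  let α : Z →* G := Coprod.inl.comp inr
  let β : Ω → (N →* G) := fun ω => if h : ω ∈ Ωf then Coprod.inl.comp (inl.comp (gen (⟨ω, h⟩ : Ωf)))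
    else (MulAut.conj (α (zz ω))).toMonoidHom.comp (Coprod.inr.comp
      ((gen (rep ω)).comp (T.κ (zz ω) (rep ω))⁻¹.toMonoidHom))
  have hβ : ∀ h ω n, β (h • ω) (T.κ h ω n) = α h * β ω n * (α h)⁻¹ := by
    intro h ω n
    by_cases hω : ω ∈ Ωf
    · have hω' : h • ω ∈ Ωf := Ωf.smul_mem h hω
      simp only [β, hω, hω', dif_pos, MonoidHom.comp_apply, α]
      have := (T.sub Ωf).conj_gen h ⟨ω, hω⟩ n
      rw [← _root_.map_mul, ← _root_.map_inv, ← _root_.map_mul]
      exact congrArg Coprod.inl this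
    · have hω' := hΩf h ω hω
      simp only [β, hω, hω', dif_neg, not_false_iff, MonoidHom.comp_apply,
        MulEquiv.coe_toMonoidHom, MulAut.conj_apply, hzz2 h ω hω, hrep2]
      have hk : (T.κ (h * zz ω) (rep ω))⁻¹ (T.κ h ω n) = (T.κ (zz ω) (rep ω))⁻¹ n := by
        have h1 : T.κ (h * zz ω) (rep ω) = T.κ h ω * T.κ (zz ω) (rep ω) := by
          rw [T.map_mul, hzz]
        rw [h1, mul_inv_rev, MulAut.mul_apply, MulAut.inv_apply_self]
      rw [hk, _root_.map_mul, mul_inv_rev]
      simp only [mul_assoc]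
  let θ : T.Prod →* G := T.lift α β hβ
  let θ' : G →* T.Prod := Coprod.lift (T.incl Ωf) (genLift fun r => inl.comp (gen r))
  have e1 : ∀ x, θ' (Coprod.inl x) = T.incl Ωf x := fun x => Coprod.lift_apply_inl _ _ x
  have e2 : ∀ r n, θ' (Coprod.inr (gen r n)) = inl (gen r n) := fun r n =>
    (Coprod.lift_apply_inr _ _ _).trans (genLift_gen _ _ _)
  have e3 : ∀ h : Z, T.incl Ωf (inr h) = inr h := fun h => T.map_inr _ _ _ h
  refine hP.of_retract θ θ' ?_ (hP.coprod ?_ (hP.coprodI hN))
  · refine T.hom_ext (fun h => ?_) (fun ω n => ?_)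
    · rw [MonoidHom.comp_apply, Twist.lift_inr, MonoidHom.comp_apply, e1, e3]; rfl
    · rw [MonoidHom.comp_apply, Twist.lift_gen, MonoidHom.id_apply]
      by_cases hω : ω ∈ Ωf
      · simp only [β, hω, dif_pos, MonoidHom.comp_apply]
        rw [e1]
        exact T.map_gen _ _ _ _ n
      · simp only [β, hω, dif_neg, not_false_iff, MonoidHom.comp_apply,
          MulEquiv.coe_toMonoidHom, MulAut.conj_apply, α]
        rw [_root_.map_mul, _root_.map_mul, _root_.map_inv, e1, e2, e3, ← T.conj_gen, hzz]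
        congr 2
        exact MulAut.apply_inv_self _ _ _
  · refine hP.twist_int_fin hbase hN (T.sub Ωf) (fun z j => hK z j) ?_ ?_
    · rintro ⟨ω, k, hk, hkω⟩
      exact ⟨k, hk, Subtype.ext hkω⟩
    · intro ω
      refine hP.of_injective (H := N ⋊[T.stab (ω : Ω)] (MulAction.stabilizer Z (ω : Ω)))
        { toFun := fun x => ⟨x.left, ⟨(x.right : Z), congrArg Subtype.val x.right.2⟩⟩
          map_one' := rfl
          map_mul' := fun x y => rfl } ?_ (hst ω)
      intro x y hxy
      have h1 := congrArg SemidirectProduct.left hxy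
      have h2 := congrArg (fun z => (z.right : Z)) hxy
      exact SemidirectProduct.ext h1 (Subtype.ext h2)

/-- The general case, given the base case. -/
theorem IsFJClass.twist_of_base (hP : IsFJClass P) (hbase : BaseHyp P N K) (hN : P N)
    {H Ω : Type} [Group H] [MulAction H Ω] (hH : P H) (T : Twist H Ω N)
    (hK : ∀ z j, T.κ z j ∈ K)
    (hst : ∀ ω, P (N ⋊[T.stab ω] (MulAction.stabilizer H ω))) : P T.Prod := by
  refine hP.semidirect_int T.act hH (hP.coprodI hN) fun q hq => ?_
  have hinj : Function.Injective (zpowersHom H q) := by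
    intro a b hab
    apply Multiplicative.toAdd.injective
    exact injective_zpow_iff_not_isOfFinOrder.2 hq hab
  let _ : MulAction (Multiplicative ℤ) Ω := MulAction.compHom Ω (zpowersHom H q)
  let T' : Twist (Multiplicative ℤ) Ω N := T.comap (zpowersHom H q) id (fun _ _ => rfl)
  have hact : T'.act = T.act.comp (zpowersHom H q) := by
    refine MonoidHom.ext fun z => MulEquiv.ext fun x => ?_
    have h : T'.actFun z = T.actFun (zpowersHom H q z) := by
      refine gen_hom_ext fun ω n => ?_
      rw [T'.actFun_gen, T.actFun_gen]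
      rfl
    exact DFunLike.congr_fun h x
  rw [← hact]
  refine hP.twist_int hbase hN T' (fun z j => hK _ j) fun ω => ?_
  refine hP.of_injective (H := N ⋊[T.stab ω] (MulAction.stabilizer H ω))
    { toFun := fun x => ⟨x.left, ⟨zpowersHom H q (x.right : Multiplicative ℤ), x.right.2⟩⟩
      map_one' := SemidirectProduct.ext rfl (Subtype.ext (by simp))
      map_mul' := fun x y => SemidirectProduct.ext rfl (Subtype.ext (by simp [zpow_add])) } ?_ (hst ω)
  intro x y hxy
  have h1 := congrArg SemidirectProduct.left hxy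
  have h2 : zpowersHom H q (x.right : Multiplicative ℤ) = zpowersHom H q y.right :=
    congrArg (fun z => (z.right : H)) hxy
  exact SemidirectProduct.ext h1 (Subtype.ext (hinj h2))

/-- The untwisted base case. -/
theorem IsFJClass.baseHyp_one (hP : IsFJClass P) : BaseHyp P N {1} := by
  intro Z J _ _ _ T hZ hN hK htriv _
  refine hP.of_injective (H := CoprodI (fun _ : J => N) × Z)
    { toFun := fun x => (x.left, x.right)
      map_one' := rfl
      map_mul' := fun x y => ?_ } ?_ (hP.prod (hP.coprodI hN) hZ)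
  · have h : T.act x.right = 1 := by
      have : T.actFun x.right = MonoidHom.id _ := by
        refine gen_hom_ext fun ω n => ?_
        rw [T.actFun_gen, htriv, show T.κ x.right ω = 1 from hK _ _]; rfl
      ext z
      exact DFunLike.congr_fun this z
    simp [h]
  · intro x y hxy
    exact SemidirectProduct.ext (congrArg Prod.fst hxy) (congrArg Prod.snd hxy)

/-- Free permutational products `(*_Ω N) ⋊ H` without twisting. -/
theorem IsFJClass.free_perm (hP : IsFJClass P) {H Ω : Type} [Group H] [MulAction H Ω]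
    (hH : P H) (hN : P N) : P (Twist.triv H Ω N).Prod := by
  refine hP.twist_of_base (K := {1}) hP.baseHyp_one hN hH _ (fun _ _ => rfl) fun ω => ?_
  refine hP.of_injective (H := N × H)
    { toFun := fun x => (x.left, x.right)
      map_one' := rfl
      map_mul' := fun x y => rfl } ?_ (hP.prod hN hH)
  intro x y hxy
  exact SemidirectProduct.ext (congrArg Prod.fst hxy) (Subtype.ext (congrArg Prod.snd hxy))

end

end Pool.Agent.FJ
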